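import Pool.Agent.H859.AL.Box

/-!
# Few bad polynomials, with local conditions at all the primes of a finite set (after helper270)
-/

set_option autoImplicit false
set_option linter.all false

open Polynomial Matrix
open scoped Classical

namespace Pool.Agent.H859.AL

open Pool.Agent.N874.PP (nm)
open Pool.Agent.N352.PJ (Mt Jm chp form Dist Typ Reg uu)
open Pool.Agent.H859.N270.PJ hiding bad
open Pool.Agent.H859.PJ (ddA eeA S_EXPA)

variable {k : Type} [Field k] [Finite k] {g : ℕ}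

omit [Finite k] in
theorem good_pos (hg : 1 ≤ g) {Q : k[X]} (hQ : Irreducible Q) [Finite (AdjoinRoot Q)] :
    1 ≤ (GoodB g (AdjoinRoot Q)).ncard := by
  haveI : Fact (Irreducible Q) := ⟨hQ⟩
  rw [Nat.one_le_iff_ne_zero, ← Nat.pos_iff_ne_zero, Set.ncard_pos]
  refine ⟨0, Matrix.isSymm_zero, ?_⟩
  rintro ⟨a, h, hm, hi, hd, he⟩
  exfalso
  have h1 : chp (0 : Mt g (AdjoinRoot Q)) = X ^ (2 * g + 1) := by
    unfold chp
    rw [Matrix.mul_zero, Matrix.charpoly_zero, Fintype.card_fin]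
  rw [h1] at he
  have h3 : h ∣ X ^ (2 * g + 1) := ⟨X - C a, by rw [he]; ring⟩
  have h4 := eq_of_monic_of_associated hm monic_X
    ((hi.dvd_irreducible_iff_associated irreducible_X).1 (hi.prime.dvd_of_dvd_pow h3))
  rw [h4, natDegree_X] at hd
  omega

theorem badT (hg : 1 ≤ g) (h20 : (2 : k) ≠ 0) (h4 : S_EXPA) {T : Finset k[X]}
    (hS : ∀ Q ∈ T, Q.Monic ∧ Irreducible Q) : ∃ N₀ : ℕ, ∀ N ≥ N₀,
    {f : k[X][X] | LBadT g N T f}.Finite ∧
    (∏ Q ∈ T, nm Q ^ ddA g) * {f : k[X][X] | LBadT g N T f}.ncard ≤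
      2 ^ (g + 1) * ((∏ Q ∈ T, (GoodB g (AdjoinRoot Q)).ncard) *
        Nat.card k ^ ((2 * N + 1) * ddA g)) := by
  obtain ⟨A, hA⟩ : ∃ A : ℕ, A = ∏ Q ∈ T, nm Q ^ ddA g := ⟨_, rfl⟩
  obtain ⟨b, hb⟩ : ∃ b : ℕ, b = ∏ Q ∈ T, (GoodB g (AdjoinRoot Q)).ncard := ⟨_, rfl⟩
  have hb1 : 1 ≤ b := by
    rw [hb]
    refine Finset.one_le_prod' fun Q hQ => ?_
    haveI := Pool.Agent.N160.PP.finite_adj (hS Q hQ).2
    exact good_pos hg (hS Q hQ).2
  obtain ⟨δ, hδ⟩ : ∃ δ : ℕ, δ = (∏ Q ∈ T, Q).natDegree := ⟨_, rfl⟩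
  obtain ⟨q, hqd⟩ : ∃ q : ℕ, q = Nat.card k := ⟨_, rfl⟩
  have hq : 2 ≤ q := by
    rw [hqd]
    exact Finite.one_lt_card
  obtain ⟨N₀, hN₀⟩ := growth A g δ
  refine ⟨N₀, fun N hN => ?_⟩
  obtain ⟨E, hE⟩ : ∃ E : ℕ, E = (2 * N + 1) * ddA g := ⟨_, rfl⟩
  let P : (Fin (2 * g + 1) → ℤ) → Set k[X][X] := fun w =>
    {f : k[X][X] | Irreducible f ∧ ∃ B : Mt g k[X], XT g N w T B ∧ chp B = f}
  have hPfin : ∀ w, Typ g w → (P w).Finite := by
    intro w hw
    refine ((fin_XT T N w).image chp).subset ?_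
    rintro f ⟨_, B, hB, hf⟩
    exact ⟨B, hB, hf⟩
  -- the types
  let W : Set (Fin (2 * g + 1) → ℤ) := {w | Typ g w ∧ Reg g N w}
  have hidx : ∀ w ∈ W, idx w ∈ Fintype.piFinset fun _ : Fin g => Finset.range (2 * g * N + 1) := by
    intro w hw
    rw [Fintype.mem_piFinset]
    intro i
    rw [Finset.mem_range]
    have h5 := reg_bd hw.1 hw.2 (g - i) ⟨i, by omega⟩
      (by show (i : ℕ) + (g - i) = g; omega)
    have h6 : (2 : ℤ) * N * ((g - i : ℕ) : ℤ) ≤ 2 * N * g := by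
      refine mul_le_mul_of_nonneg_left ?_ (by positivity)
      omega
    have h7 : (2 : ℤ) * N * g = ((2 * g * N : ℕ) : ℤ) := by
      push_cast
      ring
    have h8 := h5.trans (h6.trans_eq h7)
    unfold idx
    omega
  have hinj : Set.InjOn (idx (g := g)) W := fun w hw w' hw' hww =>
    idx_inj hw.1 hw'.1 hww
  have hWfin : W.Finite := by
    refine Set.Finite.of_finite_image ?_ hinj
    refine (Finset.finite_toSet
      (Fintype.piFinset fun _ : Fin g => Finset.range (2 * g * N + 1))).subset ?_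
    rintro _ ⟨w, hw, rfl⟩
    exact hidx w hw
  obtain ⟨V, hV⟩ : ∃ V : Finset (Fin (2 * g + 1) → ℤ), V = hWfin.toFinset := ⟨_, rfl⟩
  have hVm : ∀ w, w ∈ V ↔ w ∈ W := fun w => by rw [hV, Set.Finite.mem_toFinset]
  have hsub : {f : k[X][X] | LBadT g N T f} ⊆ ⋃ w ∈ V, P w := by
    rintro f ⟨hf, w, hw, hr, B, hB⟩
    rw [Set.mem_iUnion₂]
    exact ⟨w, (hVm w).2 ⟨hw, hr⟩, hf, B, hB⟩
  have hfin : (⋃ w ∈ V, P w).Finite :=
    Set.Finite.biUnion (Finset.finite_toSet _) fun w hw =>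
      hPfin w ((hVm w).1 (Finset.mem_coe.1 hw)).1
  have hle : {f : k[X][X] | LBadT g N T f}.ncard ≤ ∑ w ∈ V, (P w).ncard :=
    (Set.ncard_le_ncard hsub hfin).trans (ncard_biUnion_le P V)
  -- each term
  have hterm : ∀ w ∈ V, (A : ℝ) * ((P w).ncard : ℝ) ≤
      (b * (q : ℝ) ^ E) * (∏ i, (1 / 2 : ℝ) ^ idx w i + 1 / ((2 * g * N + 1 : ℕ) : ℝ) ^ g) := by
    intro w hwV
    have hw := (hVm w).1 hwV
    have ho : (P w).ncard * q ^ uu g w ≤ {B : Mt g k[X] | XT g N w T B}.ncard := by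
      rw [hqd]
      exact orbT h20 T N w hw.1
    have hE0 : (0 : ℝ) ≤ b * (q : ℝ) ^ E := by positivity
    by_cases hc : (δ : ℤ) ≤ 2 * N + 2 * w 0
    · have hbx := boxT hS N w hw.1 (by rw [← hδ]; exact hc)
      rw [← hA, ← hqd, ← hE, ← hb] at hbx
      have key : A * (P w).ncard * 2 ^ (∑ i, idx w i) ≤ b * q ^ E := by
        calc A * (P w).ncard * 2 ^ (∑ i, idx w i) ≤ A * (P w).ncard * q ^ (uu g w) :=
              Nat.mul_le_mul_left _ ((Nat.pow_le_pow_left hq _).trans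
                (Nat.pow_le_pow_right (by omega) (sum_idx_le_uu hw.1)))
          _ = A * ((P w).ncard * q ^ (uu g w)) := by ring
          _ ≤ A * {B : Mt g k[X] | XT g N w T B}.ncard := Nat.mul_le_mul_left _ ho
          _ ≤ b * q ^ E := hbx
      have key' : (A : ℝ) * ((P w).ncard : ℝ) * 2 ^ (∑ i, idx w i) ≤ b * (q : ℝ) ^ E := by
        exact_mod_cast key
      have h8 : ∏ i, (1 / 2 : ℝ) ^ idx w i = 1 / 2 ^ (∑ i, idx w i) := by
        rw [Finset.prod_pow_eq_pow_sum, _root_.one_div_pow]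
      rw [h8]
      have h9 : (A : ℝ) * ((P w).ncard : ℝ) ≤ b * (q : ℝ) ^ E * (1 / 2 ^ (∑ i, idx w i)) := by
        rw [mul_one_div, le_div_iff₀ (by positivity)]
        exact key'
      refine h9.trans (mul_le_mul_of_nonneg_left ?_ hE0)
      have : (0 : ℝ) ≤ 1 / ((2 * g * N + 1 : ℕ) : ℝ) ^ g := by positivity
      linarith
    · have hbx := box0T T N w hw.1
      rw [← hqd] at hbx
      have he := h4 g N w hw.1 hw.2
      have hm := min_le_sum N hg hw.1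
      have h50 : w 0 ≤ 0 := typ_nonpos hw.1 0 (by simp)
      have h5 : ((N - δ : ℕ) : ℤ) ≤ min (- w 0) N := by
        refine le_min ?_ ?_ <;> omega
      have h6 : eeA g N w + (N - δ) ≤ E + uu g w := by
        have : (0 : ℤ) ≤ (g : ℤ) ^ 2 := by positivity
        have h7 : (E : ℤ) = (2 * N + 1) * ddA g := by rw [hE]; push_cast; ring
        omega
      have h7 : (P w).ncard * q ^ (N - δ) ≤ q ^ E := by
        have h8 : (P w).ncard * q ^ (N - δ) * q ^ uu g w ≤ q ^ E * q ^ uu g w := by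
          calc (P w).ncard * q ^ (N - δ) * q ^ uu g w = (P w).ncard * q ^ uu g w * q ^ (N - δ) := by
                ring
            _ ≤ q ^ eeA g N w * q ^ (N - δ) := Nat.mul_le_mul_right _ (ho.trans hbx)
            _ = q ^ (eeA g N w + (N - δ)) := by rw [pow_add]
            _ ≤ q ^ (E + uu g w) := Nat.pow_le_pow_right (by omega) h6
            _ = _ := by rw [pow_add]
        exact Nat.le_of_mul_le_mul_right h8 (by positivity)
      have key : A * (P w).ncard * (2 * g * N + 1) ^ g ≤ b * q ^ E := by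
        calc A * (P w).ncard * (2 * g * N + 1) ^ g = (P w).ncard * (A * (2 * g * N + 1) ^ g) := by
              ring
          _ ≤ (P w).ncard * 2 ^ (N - δ) := Nat.mul_le_mul_left _ (hN₀ N hN)
          _ ≤ (P w).ncard * q ^ (N - δ) := Nat.mul_le_mul_left _ (Nat.pow_le_pow_left hq _)
          _ ≤ q ^ E := h7
          _ = 1 * q ^ E := (one_mul _).symm
          _ ≤ b * q ^ E := Nat.mul_le_mul_right _ hb1
      have key' : (A : ℝ) * ((P w).ncard : ℝ) * ((2 * g * N + 1 : ℕ) : ℝ) ^ g ≤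
          b * (q : ℝ) ^ E := by
        exact_mod_cast key
      have h9 : (A : ℝ) * ((P w).ncard : ℝ) ≤
          b * (q : ℝ) ^ E * (1 / ((2 * g * N + 1 : ℕ) : ℝ) ^ g) := by
        rw [mul_one_div, le_div_iff₀ (by positivity)]
        exact key'
      refine h9.trans (mul_le_mul_of_nonneg_left ?_ hE0)
      have : (0 : ℝ) ≤ ∏ i, (1 / 2 : ℝ) ^ idx w i := Finset.prod_nonneg fun i _ => by positivity
      linarith
  -- the sum
  have hs1 : ∑ w ∈ V, ∏ i, (1 / 2 : ℝ) ^ idx w i ≤ 2 ^ g := by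
    have hVi : Set.InjOn (idx (g := g)) (V : Set _) := fun w hw w' hw' hww =>
      hinj ((hVm w).1 (Finset.mem_coe.1 hw)) ((hVm w').1 (Finset.mem_coe.1 hw')) hww
    calc ∑ w ∈ V, ∏ i, (1 / 2 : ℝ) ^ idx w i =
        ∑ s ∈ V.image idx, ∏ i, (1 / 2 : ℝ) ^ s i := by rw [Finset.sum_image hVi]
      _ ≤ ∑ s ∈ Fintype.piFinset fun _ : Fin g => Finset.range (2 * g * N + 1),
          ∏ i, (1 / 2 : ℝ) ^ s i := by
        refine Finset.sum_le_sum_of_subset_of_nonneg ?_ fun s _ _ =>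
          Finset.prod_nonneg fun i _ => by positivity
        intro s hs
        rw [Finset.mem_image] at hs
        obtain ⟨w, hw, rfl⟩ := hs
        exact hidx w ((hVm w).1 hw)
      _ = ∏ i : Fin g, ∑ m ∈ Finset.range (2 * g * N + 1), (1 / 2 : ℝ) ^ m := by
        rw [Finset.prod_univ_sum]
      _ ≤ ∏ i : Fin g, (2 : ℝ) := Finset.prod_le_prod
          (fun i _ => Finset.sum_nonneg fun m _ => by positivity) fun i _ => geo _
      _ = 2 ^ g := by simp
  have hs2 : ∑ w ∈ V, 1 / ((2 * g * N + 1 : ℕ) : ℝ) ^ g ≤ 1 := by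
    have hcard : V.card ≤ (2 * g * N + 1) ^ g := by
      have h5 := Finset.card_le_card_of_injOn (s := V)
        (t := Fintype.piFinset fun _ : Fin g => Finset.range (2 * g * N + 1)) idx
        (fun w hw => hidx w ((hVm w).1 (Finset.mem_coe.1 hw)))
        (fun w hw w' hw' hww =>
          hinj ((hVm w).1 (Finset.mem_coe.1 hw)) ((hVm w').1 (Finset.mem_coe.1 hw')) hww)
      refine h5.trans_eq ?_
      rw [Fintype.card_piFinset]
      simp
    rw [Finset.sum_const, nsmul_eq_mul, mul_one_div, div_le_one (by positivity)]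
    exact_mod_cast hcard
  have hsum : (A : ℝ) * ({f : k[X][X] | LBadT g N T f}.ncard : ℝ) ≤
      2 ^ (g + 1) * (b * (q : ℝ) ^ E) := by
    have h5 : ({f : k[X][X] | LBadT g N T f}.ncard : ℝ) ≤
        ∑ w ∈ V, ((P w).ncard : ℝ) := by exact_mod_cast hle
    have h10 : (1 : ℝ) ≤ 2 ^ g := one_le_pow₀ (by norm_num)
    calc (A : ℝ) * ({f : k[X][X] | LBadT g N T f}.ncard : ℝ) ≤
        A * ∑ w ∈ V, ((P w).ncard : ℝ) := mul_le_mul_of_nonneg_left h5 (Nat.cast_nonneg A)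
      _ = ∑ w ∈ V, (A : ℝ) * ((P w).ncard : ℝ) := Finset.mul_sum _ _ _
      _ ≤ ∑ w ∈ V, (b * (q : ℝ) ^ E) *
            (∏ i, (1 / 2 : ℝ) ^ idx w i + 1 / ((2 * g * N + 1 : ℕ) : ℝ) ^ g) :=
          Finset.sum_le_sum hterm
      _ = (b * (q : ℝ) ^ E) * (∑ w ∈ V, ∏ i, (1 / 2 : ℝ) ^ idx w i +
            ∑ w ∈ V, 1 / ((2 * g * N + 1 : ℕ) : ℝ) ^ g) := by
          rw [← Finset.mul_sum, Finset.sum_add_distrib]
      _ ≤ (b * (q : ℝ) ^ E) * (2 ^ g + 1) :=
          mul_le_mul_of_nonneg_left (add_le_add hs1 hs2) (by positivity)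
      _ ≤ (b * (q : ℝ) ^ E) * (2 ^ g + 2 ^ g) :=
          mul_le_mul_of_nonneg_left (by linarith) (by positivity)
      _ = _ := by ring
  have hsum' : A * {f : k[X][X] | LBadT g N T f}.ncard ≤ 2 ^ (g + 1) * (b * q ^ E) := by
    exact_mod_cast hsum
  refine ⟨hfin.subset hsub, ?_⟩
  rw [← hA, ← hqd, ← hE, ← hb]
  exact hsum'

/-- The quotient of the two products is small if the set is large. -/
theorem prod_small (hg : 1 ≤ g) (h20 : (2 : k) ≠ 0) {T : Finset k[X]}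
    (hS : ∀ Q ∈ T, Q.Monic ∧ Irreducible Q) (hbig : ∀ Q ∈ T, 4 * g + 3 ≤ nm Q) :
    (∏ Q ∈ T, ((GoodB g (AdjoinRoot Q)).ncard : ℝ)) ≤
      (1 - 1 / (32 * g)) ^ T.card * ∏ Q ∈ T, (nm Q : ℝ) ^ ddA g := by
  rw [← Finset.prod_const, ← Finset.prod_mul_distrib]
  refine Finset.prod_le_prod (fun Q _ => by positivity) fun Q hQ => ?_
  haveI : Fact (Irreducible Q) := ⟨(hS Q hQ).2⟩
  haveI := Pool.Agent.N160.PP.finite_adj (hS Q hQ).2
  have h2' : (2 : AdjoinRoot Q) ≠ 0 := by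
    have h1 : (2 : AdjoinRoot Q) = AdjoinRoot.of Q 2 := (map_ofNat (AdjoinRoot.of Q) 2).symm
    rw [h1]
    exact fun h0 => h20 ((map_eq_zero _).1 h0)
  have hcard : Nat.card (AdjoinRoot Q) = nm Q := Pool.Agent.N160.PP.card_adj (hS Q hQ).2
  have h1 := card_good (F := AdjoinRoot Q) hg h2' (by rw [hcard]; exact hbig Q hQ)
  rw [hcard] at h1
  have h3 : (32 * g : ℝ) * ((GoodB g (AdjoinRoot Q)).ncard : ℝ) + (nm Q : ℝ) ^ ddA g ≤
      32 * g * (nm Q : ℝ) ^ ddA g := by exact_mod_cast h1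
  have hg' : (0 : ℝ) < 32 * g := by
    have : (0 : ℝ) < g := by exact_mod_cast hg
    positivity
  rw [← mul_le_mul_iff_right₀ hg']
  have e : (32 * g : ℝ) * ((1 - 1 / (32 * g)) * (nm Q : ℝ) ^ ddA g) =
      32 * g * (nm Q : ℝ) ^ ddA g - (nm Q : ℝ) ^ ddA g := by
    field_simp
  rw [e]
  linarith

end Pool.Agent.H859.AL
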