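import Pool.Agent.H859.AL.Loc
import Pool.Agent.H859.SC.N50PJOrb
import Pool.Agent.H859.SC.N270PJBad
import Pool.Agent.H859.SC.N401PJExp

/-!
# Operators with local conditions at all the primes of a finite set
(after the files of helpers 415, 50, 270)
-/

set_option autoImplicit false
set_option linter.all false

open Polynomial Matrix
open scoped Classical

namespace Pool.Agent.H859.AL

open Pool.Agent.N874.PP (nm)
open Pool.Agent.N352.PJ (Mt Jm chp form Dist Typ Reg uu)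
open Pool.Agent.N50.PJ hiding X_act fin_X orb
open Pool.Agent.H859.N415.PJBOX hiding box box0
open Pool.Agent.H859.PJ (ddA eeA)
open Pool.Agent.N160.PP (card_degreeLT mem_degreeLT' finite_adj card_adj crt_inj)

/-- The set over which we count. -/
structure XT {k : Type} [Field k] (g N : ℕ) (w : Fin (2 * g + 1) → ℤ) (T : Finset k[X])
    (B : Mt g k[X]) : Prop where
  symm : B.IsSymm
  box : ∀ i j, B i j = 0 ∨ ((B i j).natDegree : ℤ) ≤ 2 * N + w i + w j
  loc : ∀ Q ∈ T, B.map (AdjoinRoot.mk Q) ∈ GoodB g (AdjoinRoot Q)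

/-- The bad polynomials. -/
def LBadT {k : Type} [Field k] (g N : ℕ) (T : Finset k[X]) (f : k[X][X]) : Prop :=
  Irreducible f ∧ ∃ w, Typ g w ∧ Reg g N w ∧ ∃ B : Mt g k[X], XT g N w T B ∧ chp B = f

section act

variable {R : Type} [CommRing R] {g : ℕ} {u : Mt g R}

theorem good_act (hu : u * Jm g R * uᵀ = Jm g R) {B : Mt g R} (h : B ∈ GoodB g R) :
    u * B * uᵀ ∈ GoodB g R := by
  refine ⟨symm_act h.1, fun ht => ?_⟩
  rw [chp_act hu] at ht
  obtain ⟨ξ, hξ⟩ := h.2 ht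
  exact ⟨(Jm g R * u * Jm g R) *ᵥ ξ, fun m hm => by rw [form_act hu]; exact hξ m hm⟩

end act

section count

variable {k : Type} [Field k] [Finite k] {g : ℕ}

theorem fin_XT (T : Finset k[X]) (N : ℕ) (w : Fin (2 * g + 1) → ℤ) :
    {B : Mt g k[X] | XT g N w T B}.Finite := by
  have h1 : {B : Fin (2 * g + 1) → Fin (2 * g + 1) → k[X] | ∀ i,
      B i ∈ {b : Fin (2 * g + 1) → k[X] | ∀ j, b j ∈
        {p : k[X] | p.natDegree ≤ (2 * N + w i + w j).toNat}}}.Finite :=
    Set.Finite.pi' fun i => Set.Finite.pi' fun j => fin_nd _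
  refine h1.subset ?_
  intro B hB i j
  rcases hB.box i j with h | h
  · show (B i j).natDegree ≤ _
    rw [h, natDegree_zero]
    exact Nat.zero_le _
  · show (B i j).natDegree ≤ _
    omega

theorem XT_act {T : Finset k[X]} {N : ℕ} {w : Fin (2 * g + 1) → ℤ}
    {B A : Mt g k[X]} (hB : XT g N w T B) (hA : Lie w A) :
    XT g N w T (cay A * B * (cay A)ᵀ) where
  symm := symm_act hB.symm
  box := by
    intro i j
    have hb := hA.cay_bd
    have h4 : Bd w (fun i => - w i) (cay A) := hb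
    have h5 : Bd (fun i => - w i) w (cay A)ᵀ := hb.transpose
    have h6 : Bd w (fun j => 2 * N + w j) (cay A * B) :=
      h4.mul (z := w) (t := fun j => 2 * N + w j) (fun i j => by
        rcases hB.box i j with h | h
        · exact Or.inl h
        · right
          show ((B i j).natDegree : ℤ) ≤ w i + (2 * N + w j)
          omega) (fun i => by ring)
    have h7 := sum_bd Finset.univ (fun a => (cay A * B) i a * (cay A)ᵀ a j) (2 * N + w i + w j)
      (by
        intro a _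
        rcases mul_bd' (h6 i a) (h5 a j) with h | h
        · exact Or.inl h
        · right
          refine h.trans (le_of_eq ?_)
          ring)
    rw [Matrix.mul_apply]
    exact h7
  loc := by
    intro Q hQ
    have h1 : (cay A).map (AdjoinRoot.mk Q) * Jm g (AdjoinRoot Q) *
        ((cay A).map (AdjoinRoot.mk Q))ᵀ = Jm g (AdjoinRoot Q) := by
      have h2 := congrArg (fun M : Mt g k[X] => M.map (AdjoinRoot.mk Q)) hA.orth
      simp only [Matrix.map_mul] at h2
      rw [Jm_map, Matrix.transpose_map] at h2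
      exact h2
    rw [Matrix.map_mul, Matrix.map_mul, Matrix.transpose_map]
    exact good_act h1 (hB.loc Q hQ)

theorem orbT (h2 : (2 : k) ≠ 0) (T : Finset k[X]) (N : ℕ) (w : Fin (2 * g + 1) → ℤ)
    (hw : Typ g w) :
    {f : k[X][X] | Irreducible f ∧ ∃ B : Mt g k[X], XT g N w T B ∧ chp B = f}.ncard *
    Nat.card k ^ uu g w ≤ {B : Mt g k[X] | XT g N w T B}.ncard := by
  have h20 : (2 : k[X]) ≠ 0 := by
    intro h
    apply h2
    have h9 := congrArg (fun q : k[X] => q.coeff 0) h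
    simpa using h9
  have hfin : Finite {B : Mt g k[X] | XT g N w T B} := (fin_XT T N w).to_subtype
  rw [← card_par (k := k) w, ← Nat.card_coe_set_eq, ← Nat.card_prod, ← Nat.card_coe_set_eq]
  have hch : ∀ f : {f : k[X][X] | Irreducible f ∧ ∃ B : Mt g k[X], XT g N w T B ∧
      chp B = f}, ∃ B : Mt g k[X], XT g N w T B ∧ chp B = f.1 := fun f => f.2.2
  choose B hB1 hB2 using hch
  refine Nat.card_le_card_of_injective (fun z => (⟨cay (mat z.2) * B z.1 * (cay (mat z.2))ᵀ,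
    XT_act (hB1 z.1) (mat_lie hw z.2)⟩ : {B : Mt g k[X] | XT g N w T B})) ?_
  rintro ⟨f, c⟩ ⟨f', c'⟩ he
  have h5 : cay (mat c) * B f * (cay (mat c))ᵀ = cay (mat c') * B f' * (cay (mat c'))ᵀ :=
    congrArg Subtype.val he
  have h6 : f = f' := by
    apply Subtype.ext
    rw [← hB2 f, ← hB2 f', ← chp_act (mat_lie hw c).orth (B f),
      ← chp_act (mat_lie hw c').orth (B f'), h5]
  subst h6
  have h7 := free h20 (by rw [hB2 f]; exact f.2.1) (mat_lie hw c) (mat_lie hw c') h5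
  rw [mat_inj h7]

theorem box0T (T : Finset k[X]) (N : ℕ) (w : Fin (2 * g + 1) → ℤ) (hw : Typ g w) :
    {B : Mt g k[X] | XT g N w T B}.ncard ≤ Nat.card k ^ eeA g N w := by
  set T' := ∀ p : {p // p ∈ PP g}, degreeLT k (2 * N + 1 + w p.1.1 + w p.1.2).toNat with hT
  let Φ : {B : Mt g k[X] | XT g N w T B} → T' := fun B p => ⟨B.1 p.1.1 p.1.2, by
    rcases B.2.box p.1.1 p.1.2 with h1 | h1
    · rw [h1]; exact Submodule.zero_mem _
    · exact mem_degreeLT' (by omega)⟩
  have hΦ : Function.Injective Φ := by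
    rintro ⟨B, hB⟩ ⟨B', hB'⟩ h
    apply Subtype.ext
    refine mat_ext hB.symm hB'.symm fun p hp => ?_
    exact congrArg (fun t : T' => ((t ⟨p, hp⟩ : degreeLT k _) : k[X])) h
  have h1 := Nat.card_le_card_of_injective Φ hΦ
  rw [Nat.card_coe_set_eq] at h1
  refine h1.trans (le_of_eq ?_)
  rw [hT, Nat.card_pi]
  simp only [card_degreeLT]
  rw [Finset.prod_pow_eq_pow_sum]
  congr 1
  rw [Finset.sum_coe_sort (PP g) (fun p => (2 * N + 1 + w p.1 + w p.2).toNat)]
  unfold eeA PP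
  rfl

theorem boxT {T : Finset k[X]} (hS : ∀ Q ∈ T, Q.Monic ∧ Irreducible Q) (N : ℕ)
    (w : Fin (2 * g + 1) → ℤ) (hw : Typ g w)
    (hdeg : ((∏ Q ∈ T, Q).natDegree : ℤ) ≤ 2 * N + 2 * w 0) :
    (∏ Q ∈ T, nm Q ^ ddA g) * {B : Mt g k[X] | XT g N w T B}.ncard ≤
      (∏ Q ∈ T, (GoodB g (AdjoinRoot Q)).ncard) * Nat.card k ^ ((2 * N + 1) * ddA g) := by
  set M : k[X] := ∏ Q ∈ T, Q with hM
  have hMm : M.Monic := monic_prod_of_monic _ _ fun Q hQ => (hS Q hQ).1
  set D : ℕ := M.natDegree with hD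
  have hw0 : ∀ i, w 0 ≤ w i := fun i => hw.mono (Fin.zero_le i)
  have hw00 : w 0 ≤ 0 := by
    have h1 := hw.anti 0
    have h2 := hw0 (Fin.rev 0)
    omega
  set m : Fin (2 * g + 1) × Fin (2 * g + 1) → ℕ := fun p => (2 * N + 1 + w p.1 + w p.2).toNat
    with hm
  have hmD : ∀ p, D < m p := by
    intro p
    have h1 := hw0 p.1
    have h2 := hw0 p.2
    show D < (2 * N + 1 + w p.1 + w p.2).toNat
    omega
  set T' := (∀ Q : {Q // Q ∈ T}, {B : Mt g (AdjoinRoot Q.1) // B ∈ GoodB g (AdjoinRoot Q.1)}) ×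
    (∀ p : {p // p ∈ PP g}, degreeLT k (m p.1 - D)) with hT
  have hbox : ∀ B : Mt g k[X], XT g N w T B → ∀ p, (B p.1 p.2).natDegree < m p := by
    intro B hB p
    rcases hB.box p.1 p.2 with h1 | h1
    · rw [h1, natDegree_zero]; exact (Nat.zero_le _).trans_lt (hmD p)
    · show _ < (2 * N + 1 + w p.1 + w p.2).toNat
      omega
  let Φ : {B : Mt g k[X] | XT g N w T B} → T' := fun B =>
    (fun Q => ⟨B.1.map (AdjoinRoot.mk Q.1), B.2.loc Q.1 Q.2⟩,
      fun p => ⟨B.1 p.1.1 p.1.2 /ₘ M, div_mem' hMm (hmD _) (hbox B.1 B.2 p.1)⟩)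
  have hΦ : Function.Injective Φ := by
    rintro ⟨B, hB⟩ ⟨B', hB'⟩ heq
    have hQ : ∀ Q ∈ T, B.map (AdjoinRoot.mk Q) = B'.map (AdjoinRoot.mk Q) := by
      intro Q hQ
      exact congrArg (fun t : T' => (t.1 ⟨Q, hQ⟩).1) heq
    apply Subtype.ext
    refine mat_ext hB.symm hB'.symm fun p hp => ?_
    refine crt_inj hS (fun Q hQ' => ?_) ?_
    · exact congrFun (congrFun (hQ Q hQ') p.1) p.2
    · exact congrArg (fun t : T' => ((t.2 ⟨p, hp⟩ : degreeLT k _) : k[X])) heq
  haveI : ∀ Q : {Q // Q ∈ T}, Finite {B : Mt g (AdjoinRoot Q.1) // B ∈ GoodB g (AdjoinRoot Q.1)} :=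
    fun Q => by
      haveI := finite_adj (hS Q.1 Q.2).2
      infer_instance
  have h1 := Nat.card_le_card_of_injective Φ hΦ
  rw [Nat.card_coe_set_eq] at h1
  have hexp : ∑ p ∈ PP g, (m p - D) = (2 * N + 1 - D) * ddA g := by
    have e1 : ∀ p, ((m p - D : ℕ) : ℤ) = ((2 * N + 1 - D : ℕ) : ℤ) + (w p.1 + w p.2) := by
      intro p
      have h1 := hw0 p.1
      have h2 := hw0 p.2
      show (((2 * N + 1 + w p.1 + w p.2).toNat - D : ℕ) : ℤ) = _
      omega
    have e2 : ((∑ p ∈ PP g, (m p - D) : ℕ) : ℤ) = (((2 * N + 1 - D) * ddA g : ℕ) : ℤ) := by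
      rw [Nat.cast_sum, Finset.sum_congr rfl fun p _ => e1 p, Finset.sum_add_distrib, sum_PP hw,
        Finset.sum_const, card_PP, nsmul_eq_mul, add_zero, Nat.cast_mul, mul_comm]
    exact_mod_cast e2
  have hcard : Nat.card T' = (∏ Q ∈ T, (GoodB g (AdjoinRoot Q)).ncard) *
      Nat.card k ^ ((2 * N + 1 - D) * ddA g) := by
    rw [hT, Nat.card_prod, Nat.card_pi, Nat.card_pi]
    simp only [card_degreeLT]
    rw [Finset.prod_pow_eq_pow_sum, Finset.sum_coe_sort (PP g) (fun p => m p - D), hexp,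
      ← Finset.prod_coe_sort T (fun Q => (GoodB g (AdjoinRoot Q)).ncard)]
    rfl
  rw [hcard] at h1
  have h4 : ∏ Q ∈ T, nm Q ^ ddA g = Nat.card k ^ (D * ddA g) := by
    rw [Finset.prod_pow, pow_mul]
    congr 1
    unfold nm
    rw [Finset.prod_pow_eq_pow_sum, hD, hM, natDegree_prod_of_monic _ _ fun Q hQ => (hS Q hQ).1]
  calc (∏ Q ∈ T, nm Q ^ ddA g) * {B : Mt g k[X] | XT g N w T B}.ncard
      ≤ (∏ Q ∈ T, nm Q ^ ddA g) * ((∏ Q ∈ T, (GoodB g (AdjoinRoot Q)).ncard) *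
        Nat.card k ^ ((2 * N + 1 - D) * ddA g)) := Nat.mul_le_mul_left _ h1
    _ = (∏ Q ∈ T, (GoodB g (AdjoinRoot Q)).ncard) * (Nat.card k ^ (D * ddA g) *
        Nat.card k ^ ((2 * N + 1 - D) * ddA g)) := by rw [h4]; ring
    _ = _ := by
        rw [← pow_add, ← add_mul]
        congr 3
        omega

end count

end Pool.Agent.H859.AL
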