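import Pool.Agent.H859.AL.Cst

/-!
# Constant extensions of `k(t)` are Galois
-/

set_option autoImplicit false
set_option linter.all false

open Polynomial Filter Topology IsDedekindDomain
open scoped Classical

namespace Pool.Agent.H859.AL

attribute [local instance] Polynomial.algebra

section

variable {k : Type} [Field k] [Finite k] {k' : Type} [Field k'] [Finite k'] [Algebra k k']

theorem gal_group : IsGaloisGroup (k' ≃ₐ[k] k') k[X] k'[X] := by
  haveI : IsGalois k k' := inferInstance
  constructor
  · constructor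
    intro g h hgh
    ext a
    have h1 := hgh (C a)
    rw [smul_C, smul_C, C_inj] at h1
    exact h1
  · constructor
    intro g a b
    rw [Algebra.smul_def, Algebra.smul_def, smul_mul']
    congr 1
    rw [Polynomial.algebraMap_def, coe_mapRingHom]
    ext n
    rw [Polynomial.coeff_smul, coeff_map]
    exact g.commutes _
  · constructor
    intro b hb
    have h1 : b ∈ Polynomial.lifts (algebraMap k k') := by
      rw [Polynomial.lifts_iff_coeff_lifts]
      intro n
      have h2 : ∀ g : k' ≃ₐ[k] k', g (b.coeff n) = b.coeff n := by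
        intro g
        have h3 := congrArg (fun p => Polynomial.coeff p n) (hb g)
        rw [Polynomial.coeff_smul] at h3
        exact h3
      have h4 := (IsGalois.mem_bot_iff_fixed (F := k) (E := k') (b.coeff n)).2 h2
      obtain ⟨a, ha⟩ := IntermediateField.mem_bot.1 h4
      exact ⟨a, ha⟩
    obtain ⟨a, ha⟩ := h1
    exact ⟨a, ha⟩

theorem con_galois {K : Type} [Field K] [Algebra k[X] K] [IsFractionRing k[X] K]
    {L : Type} [Field L] [Algebra k'[X] L] [IsFractionRing k'[X] L] [Algebra k[X] L]
    [IsScalarTower k[X] k'[X] L] [Algebra K L] [IsScalarTower k[X] K L] :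
    IsGalois K L ∧ FiniteDimensional K L ∧ Module.finrank K L = Module.finrank k k' := by
  haveI : IsGaloisGroup (k' ≃ₐ[k] k') k[X] k'[X] := gal_group
  letI : MulSemiringAction (k' ≃ₐ[k] k') L :=
    IsFractionRing.mulSemiringAction (k' ≃ₐ[k] k') k'[X] L
  haveI h1 : IsGaloisGroup (k' ≃ₐ[k] k') K L :=
    IsGaloisGroup.to_isFractionRing (k' ≃ₐ[k] k') k[X] k'[X] K L
  refine ⟨IsGaloisGroup.isGalois (k' ≃ₐ[k] k') K L,
    IsGaloisGroup.finiteDimensional (k' ≃ₐ[k] k') K L, ?_⟩
  rw [← IsGaloisGroup.card_eq_finrank (k' ≃ₐ[k] k') K L, IsGalois.card_aut_eq_finrank]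

theorem con_closure (L : Type) [Field L] [Algebra k'[X] L] [IsFractionRing k'[X] L] [Algebra k[X] L]
    [IsScalarTower k[X] k'[X] L] : IsIntegralClosure k'[X] k[X] L := by
  haveI : IsGaloisGroup (k' ≃ₐ[k] k') k[X] k'[X] := gal_group
  haveI : Algebra.IsIntegral k[X] k'[X] :=
    (IsGaloisGroup.isInvariant (G := k' ≃ₐ[k] k') (A := k[X]) (B := k'[X])).isIntegral
  exact IsIntegralClosure.of_isIntegrallyClosed k'[X] k[X] L

end

end Pool.Agent.H859.AL
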