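import Pool.Agent.H859.AL.Main
import Pool.Agent.H859.TWC.Fin
import Pool.Graph.R_pool_sql_team_seeded_63374d34.N874.JM.Gnu
import Pool.Graph.R_pool_sql_team_seeded_63374d34.N874.Jac.Def

/-!
# The theorem on almost all curves in terms of Jacobians
-/

set_option autoImplicit false
set_option linter.all false

open Polynomial IsDedekindDomain
open scoped Classical

namespace Pool.Agent.H859.AL

open Pool.Agent.N352.PJ (dsc Cg)
open Pool.Agent.H859.PJ
open Pool.Agent.H859.TWC
open Pool.Agent.H859.N874.TW (Uni SplitS RamIrr)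
open Pool.Agent.N874.Jac (UniquelyTwoDivisible ShaTwoTrivial)

variable {k : Type} [Field k] {g : ℕ}

/-- The reduction at infinity as a polynomial. -/
noncomputable def rInf (g N : ℕ) (f : k[X][X]) : k[X] :=
  X ^ (2 * g + 1) + ∑ j ∈ Finset.range (2 * g + 1),
    C ((f.coeff j).coeff (2 * N * (2 * g + 1 - j))) * X ^ j

theorem rInf_coeff (N : ℕ) (f : k[X][X]) {j : ℕ} (hj : j ≤ 2 * g) :
    (rInf g N f).coeff j = (f.coeff j).coeff (2 * N * (2 * g + 1 - j)) := by
  unfold rInf
  rw [coeff_add, coeff_X_pow, if_neg (by omega), zero_add, finsetSum_coeff,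
    Finset.sum_eq_single j]
  · rw [coeff_C_mul, coeff_X_pow, if_pos rfl, mul_one]
  · intro b _ hb
    rw [coeff_C_mul, coeff_X_pow, if_neg (Ne.symm hb), mul_zero]
  · intro h
    exact absurd (Finset.mem_range.2 (by omega)) h

theorem rInf_low (N : ℕ) (f : k[X][X]) : (∑ j ∈ Finset.range (2 * g + 1),
    C ((f.coeff j).coeff (2 * N * (2 * g + 1 - j))) * X ^ j : k[X]).degree <
      (2 * g + 1 : ℕ) := by
  refine (degree_sum_le _ _).trans_lt ?_
  rw [Finset.sup_lt_iff (by exact_mod_cast WithBot.bot_lt_coe _)]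
  intro j hj
  refine (degree_C_mul_X_pow_le _ _).trans_lt ?_
  exact_mod_cast Finset.mem_range.1 hj

theorem rInf_monic (N : ℕ) (f : k[X][X]) : (rInf g N f).Monic :=
  monic_X_pow_add (rInf_low N f)

theorem rInf_deg (N : ℕ) (f : k[X][X]) : (rInf g N f).natDegree = 2 * g + 1 := by
  unfold rInf
  rw [natDegree_add_eq_left_of_degree_lt (by rw [degree_X_pow]; exact rInf_low N f),
    natDegree_X_pow]

theorem irrInf_iff (N : ℕ) (f : k[X][X]) : IrrInf g N f ↔ Irreducible (rInf g N f) := by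
  constructor
  · rintro ⟨r, ⟨h1, h2, h3, -⟩, h4⟩
    have e : rInf g N f = r := by
      ext j
      rcases lt_trichotomy j (2 * g + 1) with h | h | h
      · rw [rInf_coeff N f (by omega), h4 j (by omega)]
      · subst h
        have h5 := (rInf_monic (g := g) N f).coeff_natDegree
        have h6 := h1.coeff_natDegree
        rw [rInf_deg] at h5
        rw [h3] at h6
        rw [h5, h6]
      · rw [coeff_eq_zero_of_natDegree_lt (by rw [rInf_deg]; exact h),
          coeff_eq_zero_of_natDegree_lt (by rw [h3]; exact h)]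
    rw [e]
    exact h2
  · intro h
    exact ⟨rInf g N f, ⟨rInf_monic N f, h, rInf_deg N f, trivial⟩,
      fun j hj => (rInf_coeff N f hj).symm⟩

theorem sq_discr {f : k[X][X]} (hf : f.Monic) (hd : f.natDegree = 2 * g + 1) :
    Squarefree (dsc g f) ↔ Squarefree f.discr := by
  have h1 := Polynomial.resultant_deriv (f := f) (by
    rw [← natDegree_pos_iff_degree_pos, hd]
    omega)
  rw [hf.leadingCoeff, mul_one, hd, Nat.add_sub_cancel] at h1
  unfold dsc
  rw [h1]
  rcases neg_one_pow_eq_or k[X] ((2 * g + 1) * (2 * g) / 2) with h2 | h2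
  · rw [h2, one_mul]
  · rw [h2, neg_one_mul]
    constructor
    · intro h x hx
      exact h x (dvd_neg.2 hx)
    · intro h x hx
      exact h x (dvd_neg.1 hx)

/-- From the property `Uni` to the Jacobians over all the fields. -/
theorem good_use [Finite k] (h2 : (2 : k) ≠ 0) (K : Type) [Field K] [Algebra k[X] K]
    [IsFractionRing k[X] K] {N : ℕ} {T : Finset k[X]} (hT : ∀ Q ∈ T, Q.Monic ∧ Irreducible Q)
    {f : k[X][X]} (ht : HtA g (2 * N) f) (hinf : IrrInf g N f) (hsq : Squarefree (dsc g f))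
    (hgt : GoodTw K T f) :
    ∃ D : k[X], D ∣ ∏ Q ∈ T, Q ∧
      ∀ (M : Type) [Field M] [Algebra K M] [Algebra k[X] M] [IsScalarTower k[X] K M]
        [FiniteDimensional K M] [IsGalois K M] (R : Type) [CommRing R] [IsDedekindDomain R]
        [Algebra R M] [IsFractionRing R M] [Algebra k[X] R] [IsScalarTower k[X] R M]
        [IsIntegralClosure R k[X] M] (n : ℕ), Module.finrank K M = 2 ^ n →
        (∀ Q ∈ T, ∀ w : HeightOneSpectrum R, algebraMap k[X] R Q ∈ w.asIdeal →
          algebraMap k[X] R Q ∉ w.asIdeal ^ 2 ∧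
          ∀ y : R, ∃ c : k[X], y - algebraMap k[X] R c ∈ w.asIdeal) →
        (∀ P : k[X], Irreducible P → (∀ w : HeightOneSpectrum R, algebraMap k[X] R P ∈ w.asIdeal →
          algebraMap k[X] R P ∉ w.asIdeal ^ 2) ∨
          Irreducible (f.map (Ideal.Quotient.mk (Ideal.span {P})))) →
        ∀ (E : IntermediateField K M) (R' : Type) [CommRing R'] [IsDedekindDomain R']
          [Algebra R' E] [IsFractionRing R' E] [Algebra k[X] R'] [IsScalarTower k[X] R' E]
          [IsIntegralClosure R' k[X] E],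
          UniquelyTwoDivisible ((f.scaleRoots D).map (algebraMap k[X] E)) ∧
            ShaTwoTrivial ((f.scaleRoots D).map (algebraMap k[X] E)) R' := by
  obtain ⟨r, hr, hrf⟩ := hinf
  obtain ⟨J, hJ, hU⟩ := hgt
  have hD0 : (∏ Q ∈ J, Q) ≠ 0 := Finset.prod_ne_zero_iff.2 fun Q hQ => (hT Q (hJ hQ)).2.ne_zero
  obtain ⟨-, i2, i3⟩ := Pool.Agent.H859.N874.JM.parts.irk g k K f N r (∏ Q ∈ J, Q) ht hr hrf hD0
  have hsep := (i3 hsq.ne_zero).2
  have hFm : (f.scaleRoots (∏ Q ∈ J, Q)).Monic := (monic_scaleRoots_iff _).2 ht.mon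
  have hFd : (f.scaleRoots (∏ Q ∈ J, Q)).natDegree = 2 * g + 1 := by
    rw [natDegree_scaleRoots, ht.deg]
  refine ⟨∏ Q ∈ J, Q, Finset.prod_dvd_prod_of_subset _ _ _ hJ, ?_⟩
  intro M _ _ _ _ _ _ R _ _ _ _ _ _ _ n hn hQ hP E R' _ _ _ _ _ _ _
  have hsel : Pool.Agent.N874.JM.SelF R
      ((f.scaleRoots (∏ Q ∈ J, Q)).map (algebraMap k[X] M)) := by
    refine hU M R n hn (fun Q hQS w hw => ?_) (fun P hPm hPi hram => ?_)
    · refine ⟨(Pool.Agent.N874.TW.val_iff Q w hw).2 (hQ Q hQS w hw).1, fun y => ?_⟩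
      obtain ⟨y, rfl⟩ := Ideal.Quotient.mk_surjective y
      obtain ⟨b, hb⟩ := (hQ Q hQS w hw).2 y
      exact ⟨b, (Ideal.Quotient.eq.2 hb).symm⟩
    · rcases hP P hPi with h | h
      · obtain ⟨w, hw, hne⟩ := hram
        exact absurd ((Pool.Agent.N874.TW.val_iff P w hw).2 (h w hw)) hne
      · exact h
  haveI : IsScalarTower k[X] K E := IntermediateField.isScalarTower _
  have hfE : Module.finrank K E ∣ 2 ^ n := by
    rw [← hn, ← Module.finrank_mul_finrank K E M]
    exact dvd_mul_right _ _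
  obtain ⟨m', -, hm'⟩ := (Nat.dvd_prime_pow Nat.prime_two).1 hfE
  obtain ⟨h4, h5⟩ := Pool.Agent.N874.JM.genuine K E R' hm' h2 hFm
    (by rw [hFd]; exact odd_two_mul_add_one g) hsep i2
    (uni_down h2 K M R hn hFm hFd hsep i2 hsel E R')
  exact ⟨Pool.Agent.N874.Jac.div_of _ h4, Pool.Agent.N874.Jac.sha_of _ R' h5⟩

end Pool.Agent.H859.AL
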