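import Pool.Agent.H859.AL.Irr
import Pool.Agent.H859.AL.Use

/-!
# Constant extensions of `k(t)`
-/

set_option autoImplicit false
set_option linter.all false

open Polynomial Filter Topology IsDedekindDomain
open scoped Classical

namespace Pool.Agent.H859.AL

attribute [local instance] Polynomial.algebra

section con

variable {k : Type} [Field k] [Finite k] {k' : Type} [Field k'] [Finite k'] [Algebra k k']

/-- Primes of `k[t]` are unramified in `k'[t]`. -/
theorem con_unram {P : k[X]} (hP : Irreducible P) (w : HeightOneSpectrum k'[X]) :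
    algebraMap k[X] k'[X] P ∉ w.asIdeal ^ 2 := by
  intro h
  have hs : (P.map (algebraMap k k')).Separable :=
    (PerfectField.separable_of_irreducible hP).map
  obtain ⟨π, hπ⟩ := (IsPrincipalIdealRing.principal w.asIdeal).principal
  change w.asIdeal = Ideal.span {π} at hπ
  rw [hπ, Ideal.span_singleton_pow, Ideal.mem_span_singleton, pow_two] at h
  have h1 : IsUnit π := hs.squarefree π h
  exact w.isPrime.ne_top (by rw [hπ]; exact Ideal.span_singleton_eq_top.2 h1)

/-- A prime of `k[t]` whose degree is divisible by the degree of `k'` over `k` splits completely. -/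
theorem con_split {Q : k[X]} (hQ : Irreducible Q) (hd : Module.finrank k k' ∣ Q.natDegree)
    (w : HeightOneSpectrum k'[X]) (hw : algebraMap k[X] k'[X] Q ∈ w.asIdeal) (y : k'[X]) :
    ∃ c : k[X], y - algebraMap k[X] k'[X] c ∈ w.asIdeal := by
  haveI : w.asIdeal.IsMaximal := w.isMaximal
  haveI : Fact (Irreducible Q) := ⟨hQ⟩
  letI : Field (k'[X] ⧸ w.asIdeal) := Ideal.Quotient.field w.asIdeal
  -- the residue field of `w` is finite
  obtain ⟨π, hπ⟩ := (IsPrincipalIdealRing.principal w.asIdeal).principal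
  change w.asIdeal = Ideal.span {π} at hπ
  have hπ0 : π ≠ 0 := by
    rintro rfl
    apply w.ne_bot
    rw [hπ, Ideal.span_singleton_eq_bot]
  haveI hfinw : Finite (k'[X] ⧸ w.asIdeal) := by
    rw [hπ]
    haveI : Module.Finite k' (AdjoinRoot π) := (AdjoinRoot.powerBasis hπ0).finite
    exact (Module.finite_of_finite k' : Finite (AdjoinRoot π))
  set q : ℕ := Nat.card k with hq
  have hq2 : 2 ≤ q := Finite.one_lt_card
  have hδ : 1 ≤ Q.natDegree := hQ.natDegree_pos
  -- the map from `k[X] / Q`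
  let φ : k[X] →+* k'[X] ⧸ w.asIdeal := (Ideal.Quotient.mk w.asIdeal).comp (algebraMap k[X] k'[X])
  let ψ : AdjoinRoot Q →+* k'[X] ⧸ w.asIdeal := Ideal.Quotient.lift (Ideal.span {Q}) φ (by
    intro a ha
    obtain ⟨b, rfl⟩ := Ideal.mem_span_singleton.1 ha
    show Ideal.Quotient.mk w.asIdeal (algebraMap k[X] k'[X] (Q * b)) = 0
    rw [Ideal.Quotient.eq_zero_iff_mem, map_mul]
    exact Ideal.mul_mem_right _ _ hw)
  haveI : Module.Finite k (AdjoinRoot Q) := (AdjoinRoot.powerBasis hQ.ne_zero).finite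
  haveI hfinQ : Finite (AdjoinRoot Q) := Module.finite_of_finite k
  haveI : Fintype (AdjoinRoot Q) := Fintype.ofFinite _
  have hcardQ : Nat.card (AdjoinRoot Q) = q ^ Q.natDegree := by
    rw [Module.natCard_eq_pow_finrank (K := k), (AdjoinRoot.powerBasis hQ.ne_zero).finrank,
      AdjoinRoot.powerBasis_dim]
  have hsub : Set.range ψ ⊆ {a : k'[X] ⧸ w.asIdeal | a ^ q ^ Q.natDegree = a} := by
    rintro _ ⟨s, rfl⟩
    show ψ s ^ q ^ Q.natDegree = ψ s
    rw [← map_pow, ← hcardQ, Nat.card_eq_fintype_card, FiniteField.pow_card]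
  have hrange : (Set.range ψ).ncard = q ^ Q.natDegree := by
    rw [← Set.image_univ, Set.ncard_image_of_injective _ ψ.injective, Set.ncard_univ, hcardQ]
  have heq : Set.range ψ = {a : k'[X] ⧸ w.asIdeal | a ^ q ^ Q.natDegree = a} := by
    apply Set.eq_of_subset_of_ncard_le hsub
    rw [hrange]
    exact roots_pow hq2 hδ
  have hk' : Nat.card k' = q ^ Module.finrank k k' := Module.natCard_eq_pow_finrank
  haveI : Fintype k' := Fintype.ofFinite _
  have hconst : ∀ a : k', a ^ q ^ Q.natDegree = a := by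
    intro a
    obtain ⟨e, he⟩ := hd
    rw [he, pow_mul, ← hk', Nat.card_eq_fintype_card]
    exact FiniteField.pow_card_pow e a
  have hmem : ∀ y : k'[X], Ideal.Quotient.mk w.asIdeal y ∈ ψ.range := by
    intro y
    induction y using Polynomial.induction_on' with
    | add p q hp hq =>
      rw [map_add]
      exact Subring.add_mem _ hp hq
    | monomial n a =>
      rw [← C_mul_X_pow_eq_monomial, map_mul, map_pow]
      refine Subring.mul_mem _ ?_ (Subring.pow_mem _ ?_ _)
      · have h1 : Ideal.Quotient.mk w.asIdeal (C a) ∈ Set.range ψ := by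
          rw [heq]
          show _ ^ _ = _
          rw [← map_pow, ← C_pow, hconst]
        exact h1
      · refine ⟨Ideal.Quotient.mk _ (X : k[X]), ?_⟩
        show Ideal.Quotient.mk w.asIdeal (algebraMap k[X] k'[X] X) = _
        rw [Polynomial.algebraMap_def, coe_mapRingHom, map_X]
  obtain ⟨s, hs⟩ := hmem y
  obtain ⟨c, rfl⟩ := Ideal.Quotient.mk_surjective s
  refine ⟨c, ?_⟩
  rw [← Ideal.Quotient.eq]
  exact hs.symm

/-- Many primes whose degree is divisible by a given number. -/
theorem exists_deg (k : Type) [Field k] [Finite k] (a d r : ℕ) (ha : 0 < a) :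
    ∃ T : Finset k[X], T.card = r ∧
      ∀ Q ∈ T, Q.Monic ∧ Irreducible Q ∧ a ∣ Q.natDegree ∧ d ≤ Nat.card k ^ Q.natDegree := by
  have hq : 2 ≤ Nat.card k := Finite.one_lt_card
  have hex : ∀ n : ℕ, 3 ≤ n → ∃ Q : k[X], Q.Monic ∧ Irreducible Q ∧ Q.natDegree = n := by
    intro n hn
    by_contra hno
    have h1 := card_irr (F := k) (n := n) (by omega)
    have h2 : {h : k[X] | h.Monic ∧ Irreducible h ∧ h.natDegree = n} = ∅ := by
      ext h
      simp only [Set.mem_setOf_eq, Set.mem_empty_iff_false, iff_false]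
      exact fun hh => hno ⟨h, hh⟩
    rw [h2, Set.ncard_empty, mul_zero, zero_add] at h1
    have h3 : Nat.card k ^ n = Nat.card k ^ (n - n / 2) * Nat.card k ^ (n / 2) := by
      rw [← pow_add]
      congr 1
      omega
    have h4 : 4 ≤ Nat.card k ^ (n - n / 2) := by
      calc 4 = 2 ^ 2 := by norm_num
        _ ≤ Nat.card k ^ 2 := Nat.pow_le_pow_left hq 2
        _ ≤ _ := Nat.pow_le_pow_right (by omega) (by omega)
    have h5 : 0 < Nat.card k ^ (n / 2) := by positivity
    rw [h3] at h1
    nlinarith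
  have hdeg : ∀ j : ℕ, 3 ≤ a * (d + 3 + j) := by
    intro j
    nlinarith
  choose F hF using fun j : ℕ => hex (a * (d + 3 + j)) (hdeg j)
  have hinj : Function.Injective F := by
    intro i j hij
    have h1 := (hF i).2.2
    rw [hij, (hF j).2.2] at h1
    have := Nat.eq_of_mul_eq_mul_left ha h1
    omega
  refine ⟨(Finset.range r).image F, ?_, ?_⟩
  · rw [Finset.card_image_of_injective _ hinj, Finset.card_range]
  · intro Q hQ
    obtain ⟨j, -, rfl⟩ := Finset.mem_image.1 hQ
    refine ⟨(hF j).1, (hF j).2.1, ?_, ?_⟩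
    · rw [(hF j).2.2]
      exact dvd_mul_right _ _
    · rw [(hF j).2.2]
      refine le_trans ?_ (Nat.lt_pow_self (by omega)).le
      nlinarith

end con

/-- A diagonal argument. -/
theorem diag (P : ℕ → ℕ → Prop) (h : ∀ i, ∀ᶠ N in atTop, P i N) :
    ∃ v : ℕ → ℕ, Tendsto v atTop atTop ∧ ∀ᶠ N in atTop, P (v N) N := by
  choose n₀ hn₀ using fun i => eventually_atTop.1 (h i)
  refine ⟨fun N => Nat.findGreatest (fun i => ∀ j ≤ i, n₀ j ≤ N) N, ?_, ?_⟩
  · rw [tendsto_atTop]
    intro b
    rw [eventually_atTop]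
    refine ⟨b + ∑ j ∈ Finset.range (b + 1), n₀ j, fun N hN => ?_⟩
    refine Nat.le_findGreatest (by omega) fun j hj => ?_
    have := Finset.single_le_sum (f := n₀) (fun i _ => Nat.zero_le _)
      (Finset.mem_range.2 (show j < b + 1 by omega))
    omega
  · rw [eventually_atTop]
    refine ⟨n₀ 0, fun N hN => ?_⟩
    have h1 : ∀ j ≤ Nat.findGreatest (fun i => ∀ j ≤ i, n₀ j ≤ N) N, n₀ j ≤ N :=
      Nat.findGreatest_spec (P := fun i => ∀ j ≤ i, n₀ j ≤ N) (Nat.zero_le N) (by
        intro j hj
        rw [Nat.le_zero.1 hj]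
        exact hN)
    exact hn₀ _ N (h1 _ le_rfl)

end Pool.Agent.H859.AL
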