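import Pool.Agent.H859.AL.Use
import Pool.Agent.H859.TWC.Cnt2

/-!
# From the exponential bound to density one
-/

set_option autoImplicit false
set_option linter.all false

open Polynomial Filter Topology IsDedekindDomain
open scoped Classical

namespace Pool.Agent.H859.AL

open Pool.Agent.H859.TWC (SplC)

/-- Density one from exceptional sets which decrease exponentially. -/
theorem tends_one {α : Type} (F : ℕ → Set α) (hfin : ∀ N, (F N).Finite)
    (hpos : ∀ᶠ N in atTop, 0 < (F N).ncard) (G : ℕ → α → Prop) {C ρ : ℝ}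
    (hρ0 : 0 ≤ ρ) (hρ : ρ < 1)
    (h : ∀ r : ℕ, ∀ᶠ N in atTop,
      ({f ∈ F N | ¬ G N f}.ncard : ℝ) ≤ C * ρ ^ r * ((F N).ncard : ℝ)) :
    Tendsto (fun N => ({f ∈ F N | G N f}.ncard : ℝ) / ((F N).ncard : ℝ)) atTop (𝓝 1) := by
  rw [Metric.tendsto_atTop']
  intro ε hε
  have h1 : Tendsto (fun r : ℕ => C * ρ ^ r) atTop (𝓝 (C * 0)) :=
    (tendsto_pow_atTop_nhds_zero_of_lt_one hρ0 hρ).const_mul C
  rw [mul_zero] at h1
  obtain ⟨r, hr⟩ := (h1.eventually (gt_mem_nhds hε)).exists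
  obtain ⟨N₀, hN₀⟩ := eventually_atTop.1 ((h r).and hpos)
  refine ⟨N₀, fun N hN => ?_⟩
  obtain ⟨hb, hp⟩ := hN₀ N hN.le
  have hp' : (0 : ℝ) < ((F N).ncard : ℝ) := by exact_mod_cast hp
  have hsum : {f ∈ F N | G N f}.ncard + {f ∈ F N | ¬ G N f}.ncard = (F N).ncard := by
    rw [← Set.ncard_union_eq _ ((hfin N).subset (Set.sep_subset _ _))
      ((hfin N).subset (Set.sep_subset _ _))]
    · congr 1
      ext f
      by_cases hG : G N f <;> simp [hG]
    · rw [Set.disjoint_left]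
      rintro f ⟨-, h1⟩ ⟨-, h2⟩
      exact h2 h1
  have hsum' : ({f ∈ F N | G N f}.ncard : ℝ) + ({f ∈ F N | ¬ G N f}.ncard : ℝ) =
      ((F N).ncard : ℝ) := by exact_mod_cast hsum
  have e : ({f ∈ F N | G N f}.ncard : ℝ) / ((F N).ncard : ℝ) - 1 =
      - (({f ∈ F N | ¬ G N f}.ncard : ℝ) / ((F N).ncard : ℝ)) := by
    rw [← hsum'] at hp' ⊢
    field_simp
    ring
  rw [Real.dist_eq, e, abs_neg, abs_of_nonneg (by positivity), div_lt_iff₀ hp']
  refine lt_of_le_of_lt hb ?_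
  exact mul_lt_mul_of_pos_right hr hp'

/-- Arbitrarily many primes which split completely in `M` and whose residue fields are large. -/
theorem exists_T {k : Type} [Field k] [Finite k] {K : Type} [Field K] [Algebra k[X] K]
    [IsFractionRing k[X] K] (M : Type) [Field M] [Algebra K M] [Algebra k[X] M]
    [IsScalarTower k[X] K M] [FiniteDimensional K M] [IsGalois K M]
    (R : Type) [CommRing R] [IsDedekindDomain R] [Algebra R M] [IsFractionRing R M]
    [Algebra k[X] R] [IsScalarTower k[X] R M] [IsIntegralClosure R k[X] M] (d r : ℕ) :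
    ∃ T : Finset k[X], T.card = r ∧
      ∀ Q ∈ T, Q.Monic ∧ Irreducible Q ∧ SplC R Q ∧ d ≤ Q.natDegree ∧
        d ≤ Nat.card k ^ Q.natDegree := by
  obtain ⟨S, h1, h2, h3⟩ := Pool.Agent.H859.TWC.exists_one_split (K := K) M R (X ^ d : k[X])
    (pow_ne_zero _ X_ne_zero) r
  refine ⟨S, h2, fun Q hQ => ?_⟩
  obtain ⟨h4, h5, h6⟩ := h3 Q hQ
  have hd : d ≤ Q.natDegree := by
    have h7 : Q - 1 ≠ 0 := fun h8 => (h1 Q hQ).2.not_isUnit (by rw [sub_eq_zero.1 h8]; exact isUnit_one)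
    have h8 := Polynomial.natDegree_le_of_dvd h5 h7
    rw [natDegree_X_pow] at h8
    refine h8.trans ?_
    refine (natDegree_sub_le _ _).trans ?_
    simp
  refine ⟨(h1 Q hQ).1, (h1 Q hQ).2, h6, hd, hd.trans ?_⟩
  haveI : Nontrivial k := inferInstance
  have h9 : 1 < Nat.card k := Finite.one_lt_card
  exact (Nat.lt_pow_self h9).le

end Pool.Agent.H859.AL
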