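import Pool.Agent.H859.AL.Cgal
import Pool.Agent.H859.AL.Hun

/-!
# The theorem on almost all curves over constant extensions
-/

set_option autoImplicit false
set_option linter.all false

open Polynomial Filter Topology IsDedekindDomain
open scoped Classical

namespace Pool.Agent.H859.AL

open Pool.Agent.N352.PJ (dsc Cg)
open Pool.Agent.H859.PJ
open Pool.Agent.H859.TWC
open Pool.Agent.H859.N874.TW (Uni SplitS RamIrr)
open Pool.Agent.N874.Jac (UniquelyTwoDivisible ShaTwoTrivial)

attribute [local instance] Polynomial.algebra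

variable {k : Type} [Field k] {g : ℕ}

/-- From the property `Uni` to the Jacobian over `M`. -/
theorem good_use_top [Finite k] (h2 : (2 : k) ≠ 0) (K : Type) [Field K] [Algebra k[X] K]
    [IsFractionRing k[X] K] {N : ℕ} {T : Finset k[X]} (hT : ∀ Q ∈ T, Q.Monic ∧ Irreducible Q)
    {f : k[X][X]} (ht : HtA g (2 * N) f) (hinf : IrrInf g N f) (hsq : Squarefree (dsc g f))
    (hgt : GoodTw K T f) :
    ∃ D : k[X], D ∣ ∏ Q ∈ T, Q ∧
      ∀ (M : Type) [Field M] [Algebra K M] [Algebra k[X] M] [IsScalarTower k[X] K M]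
        [FiniteDimensional K M] [IsGalois K M] (R : Type) [CommRing R] [IsDedekindDomain R]
        [Algebra R M] [IsFractionRing R M] [Algebra k[X] R] [IsScalarTower k[X] R M]
        [IsIntegralClosure R k[X] M] (n : ℕ), Module.finrank K M = 2 ^ n →
        (∀ Q ∈ T, ∀ w : HeightOneSpectrum R, algebraMap k[X] R Q ∈ w.asIdeal →
          algebraMap k[X] R Q ∉ w.asIdeal ^ 2 ∧
          ∀ y : R, ∃ c : k[X], y - algebraMap k[X] R c ∈ w.asIdeal) →
        (∀ P : k[X], Irreducible P → (∀ w : HeightOneSpectrum R, algebraMap k[X] R P ∈ w.asIdeal →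
          algebraMap k[X] R P ∉ w.asIdeal ^ 2) ∨
          Irreducible (f.map (Ideal.Quotient.mk (Ideal.span {P})))) →
          UniquelyTwoDivisible ((f.scaleRoots D).map (algebraMap k[X] M)) ∧
            ShaTwoTrivial ((f.scaleRoots D).map (algebraMap k[X] M)) R := by
  obtain ⟨r, hr, hrf⟩ := hinf
  obtain ⟨J, hJ, hU⟩ := hgt
  have hD0 : (∏ Q ∈ J, Q) ≠ 0 := Finset.prod_ne_zero_iff.2 fun Q hQ => (hT Q (hJ hQ)).2.ne_zero
  obtain ⟨-, i2, i3⟩ := Pool.Agent.H859.N874.JM.parts.irk g k K f N r (∏ Q ∈ J, Q) ht hr hrf hD0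
  have hsep := (i3 hsq.ne_zero).2
  have hFm : (f.scaleRoots (∏ Q ∈ J, Q)).Monic := (monic_scaleRoots_iff _).2 ht.mon
  have hFd : (f.scaleRoots (∏ Q ∈ J, Q)).natDegree = 2 * g + 1 := by
    rw [natDegree_scaleRoots, ht.deg]
  refine ⟨∏ Q ∈ J, Q, Finset.prod_dvd_prod_of_subset _ _ _ hJ, ?_⟩
  intro M _ _ _ _ _ _ R _ _ _ _ _ _ _ n hn hQ hP
  have hsel : Pool.Agent.N874.JM.SelF R
      ((f.scaleRoots (∏ Q ∈ J, Q)).map (algebraMap k[X] M)) := by
    refine hU M R n hn (fun Q hQS w hw => ?_) (fun P hPm hPi hram => ?_)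
    · refine ⟨(Pool.Agent.N874.TW.val_iff Q w hw).2 (hQ Q hQS w hw).1, fun y => ?_⟩
      obtain ⟨y, rfl⟩ := Ideal.Quotient.mk_surjective y
      obtain ⟨b, hb⟩ := (hQ Q hQS w hw).2 y
      exact ⟨b, (Ideal.Quotient.eq.2 hb).symm⟩
    · rcases hP P hPi with h | h
      · obtain ⟨w, hw, hne⟩ := hram
        exact absurd ((Pool.Agent.N874.TW.val_iff P w hw).2 (h w hw)) hne
      · exact h
  obtain ⟨h4, h5⟩ := Pool.Agent.N874.JM.genuine K M R hn h2 hFm
    (by rw [hFd]; exact odd_two_mul_add_one g) hsep i2 hsel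
  exact ⟨Pool.Agent.N874.Jac.div_of _ h4, Pool.Agent.N874.Jac.sha_of _ R h5⟩

/-- Over constant extensions. -/
theorem const_use [Finite k] (h2 : (2 : k) ≠ 0) {N : ℕ} {T : Finset k[X]}
    (hT : ∀ Q ∈ T, Q.Monic ∧ Irreducible Q)
    {f : k[X][X]} (ht : HtA g (2 * N) f) (hinf : IrrInf g N f) (hsq : Squarefree (dsc g f))
    (hgt : GoodTw (FractionRing k[X]) T f) :
    ∃ D : k[X], D ∣ ∏ Q ∈ T, Q ∧
      ∀ (k' : Type) [Field k'] [Algebra k k'] (i : ℕ), Module.finrank k k' = 2 ^ i →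
        (∀ Q ∈ T, 2 ^ i ∣ Q.natDegree) →
          UniquelyTwoDivisible (((f.scaleRoots D).map (mapRingHom (algebraMap k k'))).map
            (algebraMap k'[X] (FractionRing k'[X]))) ∧
          ShaTwoTrivial (((f.scaleRoots D).map (mapRingHom (algebraMap k k'))).map
            (algebraMap k'[X] (FractionRing k'[X]))) k'[X] := by
  obtain ⟨D, hD, h⟩ := good_use_top h2 (FractionRing k[X]) hT ht hinf hsq hgt
  refine ⟨D, hD, ?_⟩
  intro k' _ _ i hi hdeg
  haveI : Module.Finite k k' := Module.finite_of_finrank_pos (by rw [hi]; positivity)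
  haveI : Finite k' := Module.finite_of_finite k
  letI : Algebra (FractionRing k[X]) (FractionRing k'[X]) :=
    FractionRing.liftAlgebra k[X] (FractionRing k'[X])
  haveI : IsScalarTower k[X] (FractionRing k[X]) (FractionRing k'[X]) :=
    FractionRing.isScalarTower_liftAlgebra k[X] (FractionRing k'[X])
  obtain ⟨h1, h3, h4⟩ := con_galois (k := k) (k' := k') (K := FractionRing k[X])
    (L := FractionRing k'[X])
  haveI := h1
  haveI := h3
  haveI := con_closure (k := k) (k' := k') (FractionRing k'[X])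
  have h5 := h (FractionRing k'[X]) k'[X] i (h4.trans hi)
    (fun Q hQ w hw => ⟨con_unram (hT Q hQ).2 w, fun y => con_split (hT Q hQ).2
      (by rw [hi]; exact hdeg Q hQ) w hw y⟩)
    (fun P hP => Or.inl fun w _ => con_unram hP w)
  have e : algebraMap k[X] (FractionRing k'[X]) =
      (algebraMap k'[X] (FractionRing k'[X])).comp (mapRingHom (algebraMap k k')) :=
    IsScalarTower.algebraMap_eq k[X] k'[X] (FractionRing k'[X])
  rw [Polynomial.map_map, ← e]
  exact h5

end Pool.Agent.H859.AL
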