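import Pool.Agent.H859.AL.Irr
import Pool.Graph.R_pool_sql_team_seeded_63374d34.N747.PF.Frm
import Pool.Graph.R_pool_sql_team_seeded_63374d34.N644.PQ.HunB
import Pool.Graph.R_pool_sql_team_seeded_63374d34.N50.PJ.Orb
import Pool.Agent.H859.SC.N415PJBOX

/-!
# Non-distinguished operators over a finite field
-/

set_option autoImplicit false
set_option linter.all false

open Polynomial Matrix
open scoped Classical

namespace Pool.Agent.H859.AL

open Pool.Agent.N352.PJ (Mt Jm chp form Dist)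
open Pool.Agent.N644.PQ.HunB
open Pool.Agent.N50.PJ

section ring

variable {R : Type} [CommRing R] {g : ℕ} {f : R[X]}

theorem det_Gr_J (hf : f.Monic) (hd : f.natDegree = 2 * g + 1) :
    (Gr g f 1).det * (Jm g R).det = 1 := by
  rw [← Matrix.det_mul, Matrix.det_of_isLowerTriangular]
  · apply Finset.prod_eq_one
    intro i _
    have h2 : (i : ℕ) + ((Fin.rev i : Fin (2 * g + 1)) : ℕ) = 2 * g := by
      rw [Fin.val_rev]
      omega
    rw [mul_J]
    simp only [Gr, Matrix.of_apply, one_mul]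
    rw [h2, X_pow_mod hf hd (by omega), coeff_X_pow, if_pos rfl]
  · intro i j hij
    have hij' : i < j := hij
    have h2 : (i : ℕ) + ((Fin.rev j : Fin (2 * g + 1)) : ℕ) < 2 * g := by
      rw [Fin.val_rev]
      have := hij'
      rw [Fin.lt_def] at this
      omega
    rw [mul_J]
    simp only [Gr, Matrix.of_apply, one_mul]
    rw [X_pow_mod hf hd (by omega), coeff_X_pow, if_neg (by omega)]

theorem Mu_congr (hf : f.Monic) {u v : R[X]} (h : f ∣ u - v) : Mu g f u = Mu g f v := by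
  ext i k
  simp only [Mu, Matrix.of_apply]
  rw [mod_eq hf]
  rw [← sub_mul]
  exact h.mul_right _

theorem Mu_add (hf : f.Monic) (u v : R[X]) : Mu g f (u + v) = Mu g f u + Mu g f v := by
  ext i k
  simp only [Mu, Matrix.of_apply, Matrix.add_apply]
  rw [add_mul, Polynomial.add_modByMonic, coeff_add]

theorem Mu_C (hf : f.Monic) (hd : f.natDegree = 2 * g + 1) (c : R) :
    Mu g f (C c) = algebraMap R (Matrix (Fin (2 * g + 1)) (Fin (2 * g + 1)) R) c := by
  ext i k
  rw [Matrix.algebraMap_matrix_apply]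
  simp only [Mu, Matrix.of_apply]
  rw [← smul_eq_C_mul, Polynomial.smul_modByMonic, X_pow_mod hf hd i.2, coeff_smul, coeff_X_pow,
    smul_eq_mul]
  by_cases hik : i = k
  · subst hik; simp
  · rw [if_neg, if_neg hik, mul_zero]
    intro h
    exact hik (Fin.ext h.symm)

theorem Mu_aeval (hf : f.Monic) (hd : f.natDegree = 2 * g + 1) (p : R[X]) :
    aeval (Mu g f X) p = Mu g f p := by
  induction p using Polynomial.induction_on' with
  | add p q hp hq => rw [map_add, hp, hq, Mu_add hf]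
  | monomial n a =>
    rw [← C_mul_X_pow_eq_monomial, map_mul, aeval_C, map_pow, aeval_X, ← Mu_C hf hd]
    have h : ∀ n : ℕ, (Mu g f X) ^ n = Mu g f (X ^ n) := by
      intro n
      induction n with
      | zero =>
        rw [pow_zero, pow_zero, Mu_one hf hd (by rw [sub_self]; exact dvd_zero _)]
      | succ n ih => rw [pow_succ, ih, Mu_mul hf hd, pow_succ]
    rw [h, Mu_mul hf hd]

theorem Mu_zero (hf : f.Monic) (hd : f.natDegree = 2 * g + 1) {p : R[X]} (h : Mu g f p = 0) :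
    f ∣ p := by
  nontriviality R
  rw [← Polynomial.modByMonic_eq_zero_iff_dvd hf]
  ext k
  rw [coeff_zero]
  by_cases hk : k < 2 * g + 1
  · have h1 := congrFun (congrFun h 0) ⟨k, hk⟩
    simp only [Mu, Matrix.of_apply, Matrix.zero_apply] at h1
    simpa using h1
  · apply coeff_eq_zero_of_natDegree_lt
    have := Polynomial.natDegree_modByMonic_lt p hf (by
      rintro rfl
      rw [natDegree_one] at hd
      omega)
    omega

theorem charpoly_Mu (hf : f.Monic) (hd : f.natDegree = 2 * g + 1) :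
    (Mu g f X).charpoly = f := by
  nontriviality R
  have h1 : f ∣ (Mu g f X).charpoly := by
    apply Mu_zero hf hd
    rw [← Mu_aeval hf hd]
    exact Matrix.aeval_self_charpoly _
  refine eq_of_monic_of_dvd_of_natDegree_le hf (Matrix.charpoly_monic _) h1 ?_
  rw [Matrix.charpoly_natDegree_eq_dim, Fintype.card_fin, hd]

theorem comm_Mu (hf : f.Monic) (hd : f.natDegree = 2 * g + 1)
    {N : Matrix (Fin (2 * g + 1)) (Fin (2 * g + 1)) R} (h : N * Mu g f X = Mu g f X * N) :
    ∃ p : R[X], N = Mu g f p := by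
  nontriviality R
  have hc : ∀ p : R[X], N * Mu g f p = Mu g f p * N := by
    intro p
    rw [← Mu_aeval hf hd]
    have h1 : Commute N (Mu g f X) := h
    have h2 : ∀ p : R[X], Commute N (aeval (Mu g f X) p) := by
      intro p
      induction p using Polynomial.induction_on' with
      | add p q hp hq => rw [map_add]; exact hp.add_right hq
      | monomial n a =>
        rw [← C_mul_X_pow_eq_monomial, map_mul, aeval_C, map_pow, aeval_X]
        have ha : Commute N (algebraMap R (Matrix (Fin (2 * g + 1)) (Fin (2 * g + 1)) R) a) :=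
          (Algebra.commutes' a N).symm
        exact ha.mul_right (h1.pow_right n)
    exact h2 p
  refine ⟨∑ k : Fin (2 * g + 1), C (N 0 k) * X ^ (k : ℕ), ?_⟩
  set p : R[X] := ∑ k : Fin (2 * g + 1), C (N 0 k) * X ^ (k : ℕ) with hp
  have hpc : ∀ l : Fin (2 * g + 1), p.coeff l = N 0 l := by
    intro l
    rw [hp, finsetSum_coeff, Finset.sum_eq_single l]
    · rw [coeff_C_mul, coeff_X_pow, if_pos rfl, mul_one]
    · intro b _ hb
      rw [coeff_C_mul, coeff_X_pow, if_neg (fun h' => hb (Fin.ext h'.symm)), mul_zero]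
    · intro h'
      exact absurd (Finset.mem_univ _) h'
  have hpd : p %ₘ f = p := by
    rw [Polynomial.modByMonic_eq_self_iff hf, Polynomial.degree_eq_natDegree hf.ne_zero, hd]
    refine (Polynomial.degree_sum_le _ _).trans_lt ?_
    rw [Finset.sup_lt_iff (by exact_mod_cast WithBot.bot_lt_coe _)]
    intro k _
    refine (degree_C_mul_X_pow_le _ _).trans_lt ?_
    exact_mod_cast k.2
  ext i k
  have h1 := congrFun (congrFun (hc (X ^ (i : ℕ))) 0) k
  rw [Matrix.mul_apply, Matrix.mul_apply] at h1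
  have h2 : ∀ l : Fin (2 * g + 1), Mu g f (X ^ (i : ℕ)) 0 l = if l = i then 1 else 0 := by
    intro l
    simp only [Mu, Matrix.of_apply]
    have e : (X ^ (i : ℕ) * X ^ ((0 : Fin (2 * g + 1)) : ℕ) : R[X]) = X ^ (i : ℕ) := by
      simp
    rw [e, X_pow_mod hf hd i.2, coeff_X_pow]
    by_cases hl : l = i
    · subst hl; simp
    · rw [if_neg (fun h' => hl (Fin.ext h')), if_neg hl]
  have h3 : ∑ j, Mu g f (X ^ (i : ℕ)) 0 j * N j k = N i k := by
    rw [Finset.sum_eq_single i]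
    · rw [h2, if_pos rfl, one_mul]
    · intro b _ hb
      rw [h2, if_neg hb, zero_mul]
    · intro h'
      exact absurd (Finset.mem_univ _) h'
  rw [h3] at h1
  rw [← h1]
  have h4 := expand hf hd p (X ^ (i : ℕ)) (k : ℕ)
  rw [hpd] at h4
  simp only [Mu, Matrix.of_apply]
  rw [mul_comm p, ← h4]
  exact Finset.sum_congr rfl fun l _ => by rw [hpc]

theorem nondeg (hf : f.Monic) (hd : f.natDegree = 2 * g + 1) {z : R[X]}
    (h : ∀ m ≤ 2 * g, ((z * X ^ m) %ₘ f).coeff (2 * g) = 0) : f ∣ z := by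
  nontriviality R
  have h1 : (fun k : Fin (2 * g + 1) => (z %ₘ f).coeff k) ᵥ* Gr g f 1 = 0 := by
    funext m
    show ∑ k : Fin (2 * g + 1), (z %ₘ f).coeff k * Gr g f 1 k m = 0
    have h2 := expand hf hd z (X ^ (m : ℕ)) (2 * g)
    rw [mul_comm (X ^ (m : ℕ)) z, h m (by omega)] at h2
    rw [← h2]
    refine Finset.sum_congr rfl fun k _ => ?_
    simp only [Gr, Matrix.of_apply, one_mul]
    rw [← pow_add, add_comm (m : ℕ)]
  have h2 : (fun k : Fin (2 * g + 1) => (z %ₘ f).coeff k) = 0 := by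
    have h3 : Gr g f 1 * (Gr g f 1)⁻¹ = 1 := Matrix.mul_nonsing_inv _ (Gr_one hf hd)
    calc (fun k : Fin (2 * g + 1) => (z %ₘ f).coeff k)
        = (fun k : Fin (2 * g + 1) => (z %ₘ f).coeff k) ᵥ* (Gr g f 1 * (Gr g f 1)⁻¹) := by
          rw [h3, Matrix.vecMul_one]
      _ = 0 := by rw [← Matrix.vecMul_vecMul, h1, Matrix.zero_vecMul]
  rw [← Polynomial.modByMonic_eq_zero_iff_dvd hf]
  ext k
  rw [coeff_zero]
  by_cases hk : k < 2 * g + 1
  · exact congrFun h2 ⟨k, hk⟩
  · apply coeff_eq_zero_of_natDegree_lt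
    have := Polynomial.natDegree_modByMonic_lt z hf (by
      rintro rfl
      rw [natDegree_one] at hd
      omega)
    omega

end ring

section field

variable {F : Type} [Field F] [Finite F] {g : ℕ}

theorem sq_of_mul (h2 : (2 : F) ≠ 0) {a b : F} (ha : ¬ IsSquare a) (hb : ¬ IsSquare b) :
    IsSquare (a * b) := by
  haveI := Fintype.ofFinite F
  have ha0 : a ≠ 0 := by rintro rfl; exact ha (IsSquare.zero)
  have hb0 : b ≠ 0 := by rintro rfl; exact hb (IsSquare.zero)
  have hF : ringChar F ≠ 2 := by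
    intro h
    apply h2
    have h3 : ((ringChar F : ℕ) : F) = 0 := ringChar.Nat.cast_ringChar
    rw [h] at h3
    exact_mod_cast h3
  rw [← quadraticChar_one_iff_isSquare (mul_ne_zero ha0 hb0), map_mul,
    (quadraticChar_neg_one_iff_not_isSquare).2 ha, (quadraticChar_neg_one_iff_not_isSquare).2 hb]
  norm_num

theorem exists_nonsq (h2 : (2 : F) ≠ 0) : ∃ a : F, ¬ IsSquare a := by
  haveI := Fintype.ofFinite F
  apply FiniteField.exists_nonsquare
  intro h
  apply h2
  have h3 : ((ringChar F : ℕ) : F) = 0 := ringChar.Nat.cast_ringChar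
  rw [h] at h3
  exact_mod_cast h3

/-- A nonsquare whose norm is a square. -/
theorem exists_u (hg : 1 ≤ g) (h2 : (2 : F) ≠ 0) {h : F[X]} (hm : h.Monic) (hi : Irreducible h)
    (hd : h.natDegree = 2 * g) :
    ∃ u u' : F[X], X * h ∣ u * u' - 1 ∧ (∃ s : F, (Mu g (X * h) u).det = s ^ 2) ∧
      ¬ ∃ y : F[X], X * h ∣ u * y ^ 2 - 1 := by
  have hfm : (X * h).Monic := monic_X.mul hm
  have hfd : (X * h).natDegree = 2 * g + 1 := by
    rw [natDegree_X_mul hm.ne_zero, hd]
  haveI : Fact (Irreducible h) := ⟨hi⟩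
  haveI : Finite (AdjoinRoot h) := by
    haveI : Module.Finite F (AdjoinRoot h) := (AdjoinRoot.powerBasis hi.ne_zero).finite
    exact Module.finite_of_finite F
  have h2E : (2 : AdjoinRoot h) ≠ 0 := by
    have h1 : (2 : AdjoinRoot h) = AdjoinRoot.of h 2 := (map_ofNat (AdjoinRoot.of h) 2).symm
    rw [h1]
    exact fun h0 => h2 ((map_eq_zero _).1 h0)
  obtain ⟨n₀, hn₀⟩ := exists_nonsq h2
  obtain ⟨e, he⟩ := exists_nonsq h2E
  obtain ⟨n₁, rfl⟩ := AdjoinRoot.mk_surjective e
  have hco : IsCoprime (X : F[X]) h := by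
    rw [irreducible_X.coprime_iff_not_dvd]
    intro hdv
    have := (irreducible_X.dvd_irreducible_iff_associated hi).1 hdv
    have h3 := eq_of_monic_of_associated monic_X hm this
    rw [← h3, natDegree_X] at hd
    omega
  obtain ⟨a, b, hab⟩ := hco
  -- the two polynomials
  have key : ∀ r s : F[X], X ∣ (s * a * X + r * b * h) - r ∧ h ∣ (s * a * X + r * b * h) - s := by
    intro r s
    constructor
    · refine ⟨s * a - r * a, ?_⟩
      linear_combination r * hab
    · refine ⟨r * b - s * b, ?_⟩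
      linear_combination s * hab
  have hC0 : n₀ ≠ 0 := by rintro rfl; exact hn₀ IsSquare.zero
  have hn1 : ¬ h ∣ n₁ := by
    intro hdv
    apply he
    rw [AdjoinRoot.mk_eq_zero.2 hdv]
    exact IsSquare.zero
  obtain ⟨c, d, hcd⟩ := (hi.coprime_iff_not_dvd.2 hn1)
  obtain ⟨p₀, hp₀X, hp₀h⟩ : ∃ p, X ∣ p - C n₀ ∧ h ∣ p - 1 := ⟨_, key (C n₀) 1⟩
  obtain ⟨q₀, hq₀X, hq₀h⟩ : ∃ p, X ∣ p - C n₀⁻¹ ∧ h ∣ p - 1 := ⟨_, key (C n₀⁻¹) 1⟩
  obtain ⟨p₁, hp₁X, hp₁h⟩ : ∃ p, X ∣ p - 1 ∧ h ∣ p - n₁ := ⟨_, key 1 n₁⟩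
  obtain ⟨q₁, hq₁X, hq₁h⟩ : ∃ p, X ∣ p - 1 ∧ h ∣ p - d := ⟨_, key 1 d⟩
  have hXh : ∀ {z : F[X]}, X ∣ z → h ∣ z → X * h ∣ z := fun h3 h4 =>
    IsCoprime.mul_dvd ⟨a, b, hab⟩ h3 h4
  have hu0 : X * h ∣ p₀ * q₀ - 1 := by
    apply hXh
    · obtain ⟨z, hz⟩ := hp₀X
      obtain ⟨w, hw⟩ := hq₀X
      have hcc : (C n₀ * C n₀⁻¹ : F[X]) = 1 := by
        rw [← C_mul, mul_inv_cancel₀ hC0, C_1]
      refine ⟨z * q₀ + C n₀ * w, ?_⟩
      linear_combination q₀ * hz + C n₀ * hw + hcc
    · obtain ⟨z, hz⟩ := hp₀h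
      obtain ⟨w, hw⟩ := hq₀h
      refine ⟨z * q₀ + w, ?_⟩
      linear_combination q₀ * hz + hw
  have hu1 : X * h ∣ p₁ * q₁ - 1 := by
    apply hXh
    · obtain ⟨z, hz⟩ := hp₁X
      obtain ⟨w, hw⟩ := hq₁X
      refine ⟨z * q₁ + w, ?_⟩
      linear_combination q₁ * hz + hw
    · obtain ⟨z, hz⟩ := hp₁h
      obtain ⟨w, hw⟩ := hq₁h
      refine ⟨z * q₁ + n₁ * w - c, ?_⟩
      linear_combination q₁ * hz + n₁ * hw + hcd
  -- not squares
  have hns0 : ∀ u : F[X], X ∣ u - C n₀ → ¬ ∃ y : F[X], X * h ∣ u * y ^ 2 - 1 := by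
    rintro u hu ⟨y, hy⟩
    apply hn₀
    have h3 : X ∣ u * y ^ 2 - 1 := (dvd_mul_right _ _).trans hy
    rw [X_dvd_iff, coeff_zero_eq_eval_zero] at h3 hu
    rw [eval_sub, eval_mul, eval_pow, eval_one] at h3
    rw [eval_sub, eval_C] at hu
    have h4 : y.eval 0 ≠ 0 := by
      intro h5
      rw [h5] at h3
      norm_num at h3
    refine ⟨(y.eval 0)⁻¹, ?_⟩
    have h5 : n₀ * (y.eval 0) ^ 2 = 1 := by linear_combination h3 - (y.eval 0) ^ 2 * hu
    field_simp
    linear_combination h5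
  have hns1 : ∀ u : F[X], h ∣ u - n₁ → ¬ ∃ y : F[X], X * h ∣ u * y ^ 2 - 1 := by
    rintro u hu ⟨y, hy⟩
    apply he
    have h3 : h ∣ u * y ^ 2 - 1 := (dvd_mul_left _ _).trans hy
    have h4 := AdjoinRoot.mk_eq_zero.2 h3
    have h5 := AdjoinRoot.mk_eq_zero.2 hu
    rw [map_sub, map_mul, map_pow, map_one] at h4
    rw [map_sub] at h5
    have h6 : AdjoinRoot.mk h y ≠ 0 := by
      intro h7
      rw [h7] at h4
      norm_num at h4
    refine ⟨(AdjoinRoot.mk h y)⁻¹, ?_⟩
    have h7 : AdjoinRoot.mk h n₁ * (AdjoinRoot.mk h y) ^ 2 = 1 := by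
      linear_combination h4 - (AdjoinRoot.mk h y) ^ 2 * h5
    field_simp
    linear_combination h7
  by_cases hs0 : IsSquare (Mu g (X * h) p₀).det
  · obtain ⟨s, hs⟩ := hs0
    exact ⟨p₀, q₀, hu0, ⟨s, by rw [hs, sq]⟩, hns0 p₀ hp₀X⟩
  · by_cases hs1 : IsSquare (Mu g (X * h) p₁).det
    · obtain ⟨s, hs⟩ := hs1
      exact ⟨p₁, q₁, hu1, ⟨s, by rw [hs, sq]⟩, hns1 p₁ hp₁h⟩
    · obtain ⟨s, hs⟩ := sq_of_mul h2 hs0 hs1
      refine ⟨p₀ * p₁, q₀ * q₁, ?_, ⟨s, ?_⟩, hns0 _ ?_⟩
      · obtain ⟨z, hz⟩ := hu0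
        obtain ⟨w, hw⟩ := hu1
        refine ⟨z * (p₁ * q₁) + w, ?_⟩
        linear_combination p₁ * q₁ * hz + hw
      · rw [← Mu_mul hfm hfd, Matrix.det_mul, hs, sq]
      · obtain ⟨z, hz⟩ := hp₀X
        obtain ⟨w, hw⟩ := hp₁X
        refine ⟨z * p₁ + C n₀ * w, ?_⟩
        linear_combination p₁ * hz + C n₀ * hw

/-- The sets of pairs `i < j`. -/
abbrev Pr (g : ℕ) : Type := {p : Fin (2 * g + 1) × Fin (2 * g + 1) // p.1 < p.2}

theorem card_Pr (g : ℕ) : Nat.card (Pr g) = g * (2 * g + 1) := by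
  have h1 := Pool.Agent.H859.N415.PJBOX.card_PP g
  have h2 : (Finset.univ.filter fun p : Fin (2 * g + 1) × Fin (2 * g + 1) => p.1 < p.2).card +
      (Finset.univ.filter fun p : Fin (2 * g + 1) × Fin (2 * g + 1) => p.1 = p.2).card =
      (Pool.Agent.H859.N415.PJBOX.PP g).card := by
    unfold Pool.Agent.H859.N415.PJBOX.PP
    rw [← Finset.card_union_of_disjoint]
    · congr 1
      ext p
      simp only [Finset.mem_union, Finset.mem_filter, Finset.mem_univ, true_and]
      exact le_iff_lt_or_eq.symm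
    · rw [Finset.disjoint_filter]
      intro p _ h3 h4
      exact absurd h4 h3.ne
  have h3 : (Finset.univ.filter fun p : Fin (2 * g + 1) × Fin (2 * g + 1) => p.1 = p.2).card =
      2 * g + 1 := by
    rw [show (Finset.univ.filter fun p : Fin (2 * g + 1) × Fin (2 * g + 1) => p.1 = p.2) =
      (Finset.univ : Finset (Fin (2 * g + 1))).image (fun i => (i, i)) by
        ext p
        simp only [Finset.mem_filter, Finset.mem_univ, true_and, Finset.mem_image]
        constructor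
        · intro h; exact ⟨p.1, Prod.ext rfl h⟩
        · rintro ⟨i, rfl⟩; rfl]
    rw [Finset.card_image_of_injective _ (fun i j h => (Prod.mk.inj h).1), Finset.card_univ,
      Fintype.card_fin]
  rw [Nat.card_eq_fintype_card, Fintype.card_subtype]
  rw [h1, h3] at h2
  have h4 : Pool.Agent.H859.PJ.ddA g = g * (2 * g + 1) + (2 * g + 1) := by
    unfold Pool.Agent.H859.PJ.ddA; ring
  omega

/-- The skew-symmetric matrix with given entries. -/
def skew (c : Pr g → F) : Mt g F := Matrix.of fun i j =>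
  if h : i < j then c ⟨(i, j), h⟩ else if h : j < i then - c ⟨(j, i), h⟩ else 0

omit [Finite F] in
theorem skew_T (c : Pr g → F) : (skew c)ᵀ = - skew c := by
  ext i j
  simp only [skew, Matrix.transpose_apply, Matrix.of_apply, Matrix.neg_apply]
  rcases lt_trichotomy i j with h | h | h
  · rw [dif_neg (not_lt.2 h.le), dif_pos h, dif_pos h]
  · subst h
    simp
  · rw [dif_pos h, dif_neg (not_lt.2 h.le), dif_pos h, neg_neg]

omit [Finite F] in
theorem skew_smul (t : F) (c : Pr g → F) : skew (t • c) = t • skew c := by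
  ext i j
  simp only [skew, Matrix.of_apply, Matrix.smul_apply, Pi.smul_apply, smul_eq_mul]
  rcases lt_trichotomy i j with h | h | h
  · rw [dif_pos h, dif_pos h]
  · subst h
    simp
  · rw [dif_neg (not_lt.2 h.le), dif_pos h, dif_neg (not_lt.2 h.le), dif_pos h]
    ring

omit [Finite F] in
theorem skew_inj : Function.Injective (skew (g := g) (F := F)) := by
  intro c c' h
  funext p
  have h1 := congrFun (congrFun h p.1.1) p.1.2
  simp only [skew, Matrix.of_apply] at h1
  rw [dif_pos p.2, dif_pos p.2] at h1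
  exact h1

/-- The orthogonal group. -/
def OO (g : ℕ) (F : Type) [Field F] : Set (Mt g F) := {M | M * Jm g F * Mᵀ = Jm g F}

omit [Finite F] in
theorem cay_mem {A : Mt g F} (hA : Jm g F * Aᵀ = - (A * Jm g F)) (hd : IsUnit (1 + A).det) :
    (1 + A)⁻¹ * (1 - A) ∈ OO g F := by
  have h1 : (1 + A)⁻¹ * (1 + A) = 1 := Matrix.nonsing_inv_mul _ hd
  have h1' : (1 + A) * (1 + A)⁻¹ = 1 := Matrix.mul_nonsing_inv _ hd
  have h2 : Jm g F * (1 - A)ᵀ = (1 + A) * Jm g F := by
    rw [Matrix.transpose_sub, Matrix.transpose_one, mul_sub, hA, add_mul, mul_one, one_mul,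
      sub_neg_eq_add]
  have h3 : (1 - A) * Jm g F = Jm g F * (1 + A)ᵀ := by
    rw [Matrix.transpose_add, Matrix.transpose_one, mul_add, hA, sub_mul, mul_one, one_mul]
    abel
  have h4 : (1 + A)ᵀ * ((1 + A)⁻¹)ᵀ = 1 := by rw [← Matrix.transpose_mul, h1, Matrix.transpose_one]
  have h5 : (1 - A) * (1 + A) = (1 + A) * (1 - A) := by noncomm_ring
  show (1 + A)⁻¹ * (1 - A) * Jm g F * ((1 + A)⁻¹ * (1 - A))ᵀ = Jm g F
  rw [Matrix.transpose_mul]
  calc (1 + A)⁻¹ * (1 - A) * Jm g F * ((1 - A)ᵀ * ((1 + A)⁻¹)ᵀ)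
      = (1 + A)⁻¹ * (1 - A) * (Jm g F * (1 - A)ᵀ) * ((1 + A)⁻¹)ᵀ := by
        simp only [Matrix.mul_assoc]
    _ = (1 + A)⁻¹ * ((1 - A) * (1 + A)) * Jm g F * ((1 + A)⁻¹)ᵀ := by
        rw [h2]; simp only [Matrix.mul_assoc]
    _ = ((1 + A)⁻¹ * (1 + A)) * ((1 - A) * Jm g F) * ((1 + A)⁻¹)ᵀ := by
        rw [h5]; simp only [Matrix.mul_assoc]
    _ = Jm g F * ((1 + A)ᵀ * ((1 + A)⁻¹)ᵀ) := by
        rw [h1, h3, Matrix.one_mul, Matrix.mul_assoc]
    _ = _ := by rw [h4, Matrix.mul_one]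

omit [Finite F] in
theorem cay_inj' (h2 : (2 : F) ≠ 0) {A A' : Mt g F} (hd : IsUnit (1 + A).det)
    (hd' : IsUnit (1 + A').det) (h : (1 + A)⁻¹ * (1 - A) = (1 + A')⁻¹ * (1 - A')) : A = A' := by
  -- `1 + M = 2 (1 + A)⁻¹`
  have key : ∀ B : Mt g F, IsUnit (1 + B).det →
      1 + (1 + B)⁻¹ * (1 - B) = (2 : F) • (1 + B)⁻¹ := by
    intro B hB
    have e : (1 + B)⁻¹ * (1 + B) = 1 := Matrix.nonsing_inv_mul _ hB
    calc 1 + (1 + B)⁻¹ * (1 - B) = (1 + B)⁻¹ * (1 + B) + (1 + B)⁻¹ * (1 - B) := by rw [e]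
      _ = (1 + B)⁻¹ * (1 + 1) := by rw [← mul_add]; congr 1; abel
      _ = (2 : F) • (1 + B)⁻¹ := by
        rw [mul_add, mul_one, two_smul]
  have h3 : (2 : F) • (1 + A)⁻¹ = (2 : F) • (1 + A')⁻¹ := by
    rw [← key A hd, ← key A' hd', h]
  have h4 : (1 + A)⁻¹ = (1 + A')⁻¹ := smul_right_injective _ h2 h3
  have h5 : 1 + A = 1 + A' := by
    calc 1 + A = (1 + A) * ((1 + A')⁻¹ * (1 + A')) := by
          rw [Matrix.nonsing_inv_mul _ hd', Matrix.mul_one]
      _ = ((1 + A) * (1 + A)⁻¹) * (1 + A') := by rw [← h4, Matrix.mul_assoc]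
      _ = 1 + A' := by rw [Matrix.mul_nonsing_inv _ hd, Matrix.one_mul]
  exact add_left_cancel h5

/-- Few `t` with `det (1 + t A) = 0`. -/
theorem few_t (A : Mt g F) : {t : F | t ≠ 0 ∧ (1 + t • A).det = 0}.ncard ≤ 2 * g + 1 := by
  have hch : A.charpoly ≠ 0 := (Matrix.charpoly_monic A).ne_zero
  have hsub : (fun t : F => - t⁻¹) '' {t : F | t ≠ 0 ∧ (1 + t • A).det = 0} ⊆
      (A.charpoly.roots.toFinset : Set F) := by
    rintro _ ⟨t, ⟨ht, hdet⟩, rfl⟩
    rw [Finset.mem_coe, Multiset.mem_toFinset, mem_roots hch, IsRoot.def,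
      Matrix.eval_charpoly]
    have e : Matrix.scalar (Fin (2 * g + 1)) (- t⁻¹) - A = (- t⁻¹) • (1 + t • A) := by
      rw [smul_add, smul_smul, neg_mul, inv_mul_cancel₀ ht, neg_smul (1 : F), one_smul,
        sub_eq_add_neg]
      congr 1
      rw [Matrix.smul_one_eq_diagonal]
      rfl
    rw [e, Matrix.det_smul, hdet, mul_zero]
  have hinj : Set.InjOn (fun t : F => - t⁻¹) {t : F | t ≠ 0 ∧ (1 + t • A).det = 0} := by
    intro a _ b _ hab
    exact inv_injective (neg_injective hab)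
  rw [← Set.ncard_image_of_injOn hinj]
  refine (Set.ncard_le_ncard hsub (Finset.finite_toSet _)).trans ?_
  rw [Set.ncard_coe_finset]
  refine (Multiset.toFinset_card_le _).trans ((card_roots' _).trans ?_)
  rw [Matrix.charpoly_natDegree_eq_dim, Fintype.card_fin]

/-- The orthogonal group is large. -/
theorem card_OO (h2 : (2 : F) ≠ 0) (hq : 4 * g + 3 ≤ Nat.card F) :
    Nat.card F ^ (g * (2 * g + 1)) ≤ 2 * (OO g F).ncard := by
  haveI := Fintype.ofFinite F
  set q := Nat.card F with hqd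
  have hc0 : Fintype.card (Pr g → F) = q ^ (g * (2 * g + 1)) := by
    rw [Fintype.card_fun, ← card_Pr g, Nat.card_eq_fintype_card, hqd, Nat.card_eq_fintype_card]
  set U : Finset (Pr g → F) := Finset.univ.filter fun c => (1 + skew c * Jm g F).det = 0 with hU
  set V : Finset (Pr g → F) := Finset.univ.filter fun c => ¬ (1 + skew c * Jm g F).det = 0 with hV
  have hUV : U.card + V.card = q ^ (g * (2 * g + 1)) := by
    rw [← hc0, ← Finset.card_univ]
    exact Finset.card_filter_add_card_filter_not _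
  have hT : (Finset.univ.filter fun t : F => t ≠ 0).card = q - 1 := by
    rw [Finset.filter_ne' Finset.univ (0 : F), Finset.card_erase_of_mem (Finset.mem_univ _),
      Finset.card_univ, hqd, Nat.card_eq_fintype_card]
  have hdc : (q - 1) * U.card ≤ (2 * g + 1) * q ^ (g * (2 * g + 1)) := by
    have e1 : ∑ t ∈ Finset.univ.filter (fun t : F => t ≠ 0),
        (Finset.univ.filter fun c : Pr g → F => (1 + t • (skew c * Jm g F)).det = 0).card =
        (q - 1) * U.card := by
      have e0 : ∑ t ∈ Finset.univ.filter (fun t : F => t ≠ 0), U.card = (q - 1) * U.card := by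
        rw [Finset.sum_const, hT, smul_eq_mul]
      rw [← e0]
      refine Finset.sum_congr rfl fun t ht => ?_
      have ht0 : t ≠ 0 := (Finset.mem_filter.1 ht).2
      refine Finset.card_bij (fun c _ => t • c) ?_ ?_ ?_
      · intro c hc
        rw [Finset.mem_filter] at hc
        rw [hU, Finset.mem_filter, skew_smul, Matrix.smul_mul]
        exact ⟨Finset.mem_univ _, hc.2⟩
      · intro c _ c' _ h
        exact smul_right_injective _ ht0 h
      · intro c hc
        rw [hU, Finset.mem_filter] at hc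
        refine ⟨t⁻¹ • c, ?_, ?_⟩
        · rw [Finset.mem_filter, skew_smul, Matrix.smul_mul, smul_smul, mul_inv_cancel₀ ht0,
            one_smul]
          exact ⟨Finset.mem_univ _, hc.2⟩
        · rw [smul_smul, mul_inv_cancel₀ ht0, one_smul]
    have e2 : ∑ t ∈ Finset.univ.filter (fun t : F => t ≠ 0),
        (Finset.univ.filter fun c : Pr g → F => (1 + t • (skew c * Jm g F)).det = 0).card =
        ∑ c ∈ (Finset.univ : Finset (Pr g → F)), ((Finset.univ.filter (fun t : F => t ≠ 0)).filter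
          (fun t => (1 + t • (skew c * Jm g F)).det = 0)).card :=
      Finset.sum_card_bipartiteAbove_eq_sum_card_bipartiteBelow _
    have e3 : ∑ c ∈ (Finset.univ : Finset (Pr g → F)), (2 * g + 1) =
        (2 * g + 1) * q ^ (g * (2 * g + 1)) := by
      rw [Finset.sum_const, Finset.card_univ, hc0, smul_eq_mul, mul_comm]
    rw [← e1, e2, ← e3]
    refine Finset.sum_le_sum fun c _ => ?_
    have h3 := few_t (skew c * Jm g F)
    have h4 : ((Finset.univ.filter (fun t : F => t ≠ 0)).filter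
        (fun t => (1 + t • (skew c * Jm g F)).det = 0) : Set F) =
        {t : F | t ≠ 0 ∧ (1 + t • (skew c * Jm g F)).det = 0} := by
      ext t
      simp
    rw [← h4, Set.ncard_coe_finset] at h3
    exact h3
  have hVO : V.card ≤ (OO g F).ncard := by
    rw [← Set.ncard_coe_finset]
    refine Set.ncard_le_ncard_of_injOn
      (fun c => (1 + skew c * Jm g F)⁻¹ * (1 - skew c * Jm g F)) ?_ ?_ (Set.toFinite _)
    · intro c hc
      rw [Finset.mem_coe, hV, Finset.mem_filter] at hc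
      refine cay_mem ?_ (isUnit_iff_ne_zero.2 hc.2)
      rw [Matrix.transpose_mul, J_T, skew_T, ← Matrix.mul_assoc, J_sq, Matrix.one_mul,
        Matrix.mul_assoc, J_sq, Matrix.mul_one]
    · intro c hc c' hc' h
      rw [Finset.mem_coe, hV, Finset.mem_filter] at hc hc'
      have h3 := cay_inj' h2 (isUnit_iff_ne_zero.2 hc.2) (isUnit_iff_ne_zero.2 hc'.2) h
      apply skew_inj
      calc skew c = skew c * Jm g F * Jm g F := by rw [Matrix.mul_assoc, J_sq, Matrix.mul_one]
        _ = skew c' * Jm g F * Jm g F := by rw [h3]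
        _ = skew c' := by rw [Matrix.mul_assoc, J_sq, Matrix.mul_one]
  -- `U` is at most half
  have hhalf : 2 * U.card ≤ q ^ (g * (2 * g + 1)) := by
    have h5 : 2 * (2 * g + 1) ≤ q - 1 := by omega
    have h6 : (q - 1) * (2 * U.card) ≤ (q - 1) * q ^ (g * (2 * g + 1)) := by
      calc (q - 1) * (2 * U.card) = 2 * ((q - 1) * U.card) := by ring
        _ ≤ 2 * ((2 * g + 1) * q ^ (g * (2 * g + 1))) := Nat.mul_le_mul_left _ hdc
        _ = (2 * (2 * g + 1)) * q ^ (g * (2 * g + 1)) := by ring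
        _ ≤ _ := Nat.mul_le_mul_right _ h5
    exact Nat.le_of_mul_le_mul_left h6 (by omega)
  omega

end field

end Pool.Agent.H859.AL
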