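import Mathlib

/-!
# The number of irreducible polynomials of degree `n` over a finite field
-/

set_option autoImplicit false
set_option linter.all false

open Polynomial
open scoped Classical

namespace Pool.Agent.H859.AL

theorem geo_le {q : ℕ} (hq : 2 ≤ q) : ∀ m : ℕ, ∑ d ∈ Finset.Icc 1 m, q ^ d ≤ 2 * q ^ m := by
  intro m
  induction m with
  | zero => simp
  | succ m ih =>
    rw [Finset.sum_Icc_succ_top (by omega)]
    have : 2 * q ^ m ≤ q ^ (m + 1) := by
      rw [pow_succ, mul_comm]
      exact Nat.mul_le_mul_left _ hq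
    omega

theorem roots_pow {L : Type} [Field L] [Finite L] {q d : ℕ} (hq : 2 ≤ q) (hd : 1 ≤ d) :
    {a : L | a ^ q ^ d = a}.ncard ≤ q ^ d := by
  have hqd : 1 < q ^ d := Nat.one_lt_pow (by omega) (by omega)
  set P : L[X] := X ^ (q ^ d) - X with hP
  have hdeg : P.natDegree = q ^ d := by
    rw [hP, FiniteField.X_pow_card_pow_sub_X_natDegree_eq L (by omega) (by omega)]
  have hP0 : P ≠ 0 := by
    intro h
    rw [h, natDegree_zero] at hdeg
    omega
  have hsub : {a : L | a ^ q ^ d = a} ⊆ (P.roots.toFinset : Set L) := by
    intro a ha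
    rw [Finset.mem_coe, Multiset.mem_toFinset, mem_roots hP0]
    show P.eval a = 0
    rw [hP, eval_sub, eval_pow, eval_X, sub_eq_zero]
    exact ha
  refine (Set.ncard_le_ncard hsub (Finset.finite_toSet _)).trans ?_
  rw [Set.ncard_coe_finset]
  exact (Multiset.toFinset_card_le _).trans ((card_roots' _).trans hdeg.le)

theorem fin_monic {F : Type} [Field F] [Finite F] (n : ℕ) :
    {h : F[X] | h.Monic ∧ h.natDegree = n}.Finite := by
  have h1 : ((degreeLT F (n + 1) : Submodule F F[X]) : Set F[X]).Finite := by
    haveI : Finite (degreeLT F (n + 1)) :=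
      Finite.of_equiv (Fin (n + 1) → F) (degreeLTEquiv F (n + 1)).symm.toEquiv
    exact Set.toFinite _
  refine h1.subset ?_
  rintro h ⟨-, hd⟩
  show h ∈ degreeLT F (n + 1)
  rw [mem_degreeLT]
  refine lt_of_le_of_lt degree_le_natDegree ?_
  rw [hd]
  exact_mod_cast Nat.lt_succ_self n

/-- Many monic irreducible polynomials of degree `n`. -/
theorem card_irr {F : Type} [Field F] [Finite F] {n : ℕ} (hn : 1 ≤ n) :
    Nat.card F ^ n ≤ n * {h : F[X] | h.Monic ∧ Irreducible h ∧ h.natDegree = n}.ncard +
      2 * Nat.card F ^ (n / 2) := by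
  obtain ⟨p, hp⟩ := CharP.exists F
  haveI : Fact (Nat.Prime p) := ⟨CharP.char_is_prime F p⟩
  haveI : NeZero n := ⟨by omega⟩
  have hq : 2 ≤ Nat.card F := Finite.one_lt_card
  let L := FiniteField.Extension F p n
  haveI : Fintype L := Fintype.ofFinite L
  have hcard : Fintype.card L = Nat.card F ^ n := by
    rw [← FiniteField.natCard_extension F p n, Nat.card_eq_fintype_card]
  set I := {h : F[X] | h.Monic ∧ Irreducible h ∧ h.natDegree = n} with hI
  have hIf : I.Finite := (fin_monic n).subset fun h hh => ⟨hh.1, hh.2.2⟩
  set A : Finset L := Finset.univ.filter fun a => (minpoly F a).natDegree = n with hA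
  set B : Finset L := Finset.univ.filter fun a => ¬ (minpoly F a).natDegree = n with hB
  have hAB : A.card + B.card = Nat.card F ^ n := by
    rw [← hcard, ← Finset.card_univ]
    exact Finset.card_filter_add_card_filter_not _
  have hint : ∀ a : L, IsIntegral F a := fun a => Algebra.IsIntegral.isIntegral a
  have h1 : A.card ≤ n * I.ncard := by
    rw [Set.ncard_eq_toFinset_card I hIf]
    refine Finset.card_le_mul_card_image_of_maps_to (f := fun a => minpoly F a) ?_ n ?_
    · intro a ha
      rw [hA, Finset.mem_filter] at ha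
      rw [Set.Finite.mem_toFinset]
      exact ⟨minpoly.monic (hint a), minpoly.irreducible (hint a), ha.2⟩
    · intro h hh
      rw [Set.Finite.mem_toFinset] at hh
      have hh0 : h.map (algebraMap F L) ≠ 0 := (hh.1.map _).ne_zero
      have hsub : (A.filter fun a => minpoly F a = h) ⊆ (h.map (algebraMap F L)).roots.toFinset := by
        intro a ha
        rw [Finset.mem_filter] at ha
        rw [Multiset.mem_toFinset, mem_roots hh0]
        show (h.map (algebraMap F L)).eval a = 0
        rw [eval_map_algebraMap, ← ha.2, minpoly.aeval]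
      refine (Finset.card_le_card hsub).trans ((Multiset.toFinset_card_le _).trans ?_)
      refine (card_roots' _).trans ?_
      rw [hh.1.natDegree_map, hh.2.2]
  have h2 : B.card ≤ 2 * Nat.card F ^ (n / 2) := by
    have hsub : (B : Set L) ⊆ ⋃ d ∈ Finset.Icc 1 (n / 2), {a : L | a ^ Nat.card F ^ d = a} := by
      intro a ha
      rw [Finset.mem_coe, hB, Finset.mem_filter] at ha
      set d := (minpoly F a).natDegree with hd
      have hd1 : 1 ≤ d := minpoly.natDegree_pos (hint a)
      have hdvd : d ∣ n := by
        have := minpoly.degree_dvd (hint a)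
        rwa [FiniteField.finrank_extension] at this
      have hd2 : d ≤ n / 2 := by
        obtain ⟨e, he⟩ := hdvd
        have he1 : e ≠ 1 := by
          rintro rfl
          exact ha.2 (by rw [he, mul_one])
        have he0 : e ≠ 0 := by
          rintro rfl
          rw [mul_zero] at he
          omega
        rw [Nat.le_div_iff_mul_le (by norm_num), he]
        exact Nat.mul_le_mul_left _ (by omega)
      rw [Set.mem_iUnion₂]
      refine ⟨d, by rw [Finset.mem_Icc]; exact ⟨hd1, hd2⟩, ?_⟩
      have h3 := ((minpoly.irreducible (hint a)).natDegree_dvd_iff_dvd_X_pow_card_pow_sub_X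
        (n := d)).1 (dvd_refl _)
      obtain ⟨u, hu⟩ := h3
      have h4 := congrArg (aeval a) hu
      rw [map_mul, minpoly.aeval, zero_mul, map_sub, map_pow, aeval_X, sub_eq_zero] at h4
      exact h4
    have h3 : (B : Set L).ncard ≤ ∑ d ∈ Finset.Icc 1 (n / 2), Nat.card F ^ d := by
      refine (Set.ncard_le_ncard hsub (Set.toFinite _)).trans ?_
      have key : ∀ s : Finset ℕ, (∀ d ∈ s, 1 ≤ d) →
          (⋃ d ∈ s, {a : L | a ^ Nat.card F ^ d = a}).ncard ≤ ∑ d ∈ s, Nat.card F ^ d := by
        intro s
        induction s using Finset.induction_on with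
        | empty => intro _; simp
        | insert d s hd ih =>
          intro hs
          rw [Finset.set_biUnion_insert, Finset.sum_insert hd]
          refine (Set.ncard_union_le _ _).trans (Nat.add_le_add
            (roots_pow hq (hs d (Finset.mem_insert_self _ _)))
            (ih fun e he => hs e (Finset.mem_insert_of_mem he)))
      exact key _ fun d hd => (Finset.mem_Icc.1 hd).1
    rw [Set.ncard_coe_finset] at h3
    exact h3.trans (geo_le hq _)
  rw [← hAB]
  exact Nat.add_le_add h1 h2

end Pool.Agent.H859.AL
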