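import Pool.Agent.H859.AL.Orb

/-!
# Translations, and the share of the bad local conditions
-/

set_option autoImplicit false
set_option linter.all false

open Polynomial Matrix
open scoped Classical

namespace Pool.Agent.H859.AL

open Pool.Agent.N352.PJ (Mt Jm chp form Dist)
open Pool.Agent.N50.PJ

section trans

variable {R : Type} [CommRing R] {g : ℕ}

theorem J_shift (B : Mt g R) (a : R) :
    Jm g R * (B + a • Jm g R) = Jm g R * B - Matrix.scalar (Fin (2 * g + 1)) (-a) := by
  have h : Matrix.scalar (Fin (2 * g + 1)) (-a) = - (a • (1 : Mt g R)) := by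
    rw [map_neg]
    congr 1
    rw [Matrix.scalar_apply, Matrix.smul_one_eq_diagonal]
  rw [mul_add, Matrix.mul_smul, J_sq, h, sub_neg_eq_add]

theorem chp_shift (B : Mt g R) (a : R) : chp (B + a • Jm g R) = (chp B).comp (X - C a) := by
  unfold chp
  rw [J_shift, Matrix.charpoly_sub_scalar, C_neg, ← sub_eq_add_neg]

theorem form_shift (B : Mt g R) (a : R) (m : ℕ) (ξ : Fin (2 * g + 1) → R) :
    form (B + a • Jm g R) m ξ =
      ∑ i ∈ Finset.range (m + 1), (a ^ (m - i) * (m.choose i : R)) * form B i ξ := by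
  have h1 : Jm g R * (B + a • Jm g R) = Jm g R * B + a • (1 : Mt g R) := by
    rw [mul_add, Matrix.mul_smul, J_sq]
  have hc : Commute (Jm g R * B) (a • (1 : Mt g R)) := (Commute.one_right _).smul_right a
  unfold form
  rw [h1, hc.add_pow, Finset.mul_sum, Matrix.sum_mulVec, dotProduct_sum]
  refine Finset.sum_congr rfl fun i _ => ?_
  have e : Jm g R * ((Jm g R * B) ^ i * (a • (1 : Mt g R)) ^ (m - i) * (m.choose i : Mt g R)) =
      (a ^ (m - i) * (m.choose i : R)) • (Jm g R * (Jm g R * B) ^ i) := by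
    rw [_root_.smul_pow, one_pow, Matrix.mul_smul, Matrix.mul_one]
    have e2 : (m.choose i : Mt g R) = (m.choose i : R) • (1 : Mt g R) := by
      rw [Nat.cast_smul_eq_nsmul, nsmul_eq_mul, mul_one]
    rw [e2, Matrix.mul_smul, Matrix.mul_one, Matrix.mul_smul, Matrix.mul_smul, smul_smul,
      mul_comm (m.choose i : R)]
  rw [e, Matrix.smul_mulVec, dotProduct_smul, smul_eq_mul]

theorem dist_shift {B : Mt g R} (h : Dist B) (a : R) : Dist (B + a • Jm g R) := by
  obtain ⟨ξ, hξ⟩ := h
  refine ⟨ξ, fun m hm => ?_⟩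
  rw [form_shift, Finset.sum_eq_single m]
  · rw [Nat.sub_self, pow_zero, Nat.choose_self, Nat.cast_one, one_mul, one_mul, hξ m hm]
  · intro i hi him
    rw [Finset.mem_range] at hi
    rw [hξ i (by omega), if_neg (by omega), mul_zero]
  · intro h'
    exact absurd (Finset.mem_range.2 (Nat.lt_succ_self m)) h'

theorem shift_symm {B : Mt g R} (h : B.IsSymm) (a : R) : (B + a • Jm g R).IsSymm := by
  unfold Matrix.IsSymm at h ⊢
  rw [Matrix.transpose_add, Matrix.transpose_smul, h, J_T]

end trans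

/-- `f` is the product of a linear and an irreducible polynomial of degree `2 g`. -/
def TypeOne (g : ℕ) {F : Type} [CommRing F] (f : F[X]) : Prop :=
  ∃ (a : F) (h : F[X]), h.Monic ∧ Irreducible h ∧ h.natDegree = 2 * g ∧ f = (X - C a) * h

/-- The matrices which satisfy the local condition. -/
def GoodB (g : ℕ) (F : Type) [CommRing F] : Set (Mt g F) :=
  {B | B.IsSymm ∧ (TypeOne g (chp B) → Dist B)}

section one

variable {F : Type} [Field F] {g : ℕ}

theorem irr_comp {h : F[X]} (hi : Irreducible h) (c : F) : Irreducible (h.comp (X + C c)) := by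
  have h1 : h.comp (X + C c) = algEquivAevalXAddC c h := by
    simp [algEquivAevalXAddC, comp_eq_aeval]
  rw [h1, MulEquiv.irreducible_iff]
  exact hi

theorem irr_comp' {h : F[X]} (hi : Irreducible h) (c : F) : Irreducible (h.comp (X - C c)) := by
  rw [sub_eq_add_neg, ← C_neg]
  exact irr_comp hi _

theorem monic_comp' {h : F[X]} (hm : h.Monic) (c : F) : (h.comp (X - C c)).Monic :=
  hm.comp (monic_X_sub_C c) (by rw [natDegree_X_sub_C]; exact one_ne_zero)

theorem deg_comp' {h : F[X]} (c : F) : (h.comp (X - C c)).natDegree = h.natDegree := by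
  rw [natDegree_comp, natDegree_X_sub_C, mul_one]

theorem no_root (hg : 1 ≤ g) {h : F[X]} (hi : Irreducible h) (hd : h.natDegree = 2 * g) (x : F) :
    h.eval x ≠ 0 := by
  intro h0
  have h1 := degree_eq_one_of_irreducible_of_root hi h0
  rw [degree_eq_natDegree hi.ne_zero, hd] at h1
  have : 2 * g = 1 := by exact_mod_cast h1
  omega

theorem one_unique (hg : 1 ≤ g) {a a' : F} {h h' : F[X]} (hi : Irreducible h)
    (hi' : Irreducible h') (hd : h.natDegree = 2 * g) (hd' : h'.natDegree = 2 * g)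
    (he : (X - C a) * h.comp (X - C a) = (X - C a') * h'.comp (X - C a')) : a = a' ∧ h = h' := by
  have h1 : a = a' := by
    have h2 := congrArg (eval a) he
    rw [eval_mul, eval_mul, eval_sub, eval_X, eval_C, sub_self, zero_mul] at h2
    rcases mul_eq_zero.1 h2.symm with h3 | h3
    · rw [eval_sub, eval_X, eval_C, sub_eq_zero] at h3
      exact h3
    · exact absurd h3 (no_root hg (irr_comp' hi' a') (by rw [deg_comp', hd']) a)
  subst h1
  refine ⟨rfl, ?_⟩
  have h2 := mul_left_cancel₀ (X_sub_C_ne_zero a) he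
  have h3 := congrArg (fun p : F[X] => p.comp (X + C a)) h2
  simpa [comp_assoc] using h3

variable [Finite F]

theorem card_sym_le (g : ℕ) : {B : Mt g F | B.IsSymm}.ncard ≤
    Nat.card F ^ Pool.Agent.H859.PJ.ddA g := by
  have h1 : Nat.card ({p // p ∈ Pool.Agent.H859.N415.PJBOX.PP g} → F) =
      Nat.card F ^ Pool.Agent.H859.PJ.ddA g := by
    rw [Nat.card_fun, Nat.card_eq_fintype_card (α := {p // p ∈ _}), Fintype.card_coe,
      Pool.Agent.H859.N415.PJBOX.card_PP]
  rw [← h1, ← Nat.card_coe_set_eq]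
  refine Nat.card_le_card_of_injective
    (fun B : {B : Mt g F | B.IsSymm} => fun p : {p // p ∈ Pool.Agent.H859.N415.PJBOX.PP g} =>
      B.1 p.1.1 p.1.2) ?_
  rintro ⟨B, hB⟩ ⟨B', hB'⟩ h
  apply Subtype.ext
  exact Pool.Agent.H859.N415.PJBOX.mat_ext hB hB' fun p hp => congrFun h ⟨p, hp⟩

/-- The local condition is a real one. -/
theorem card_good (hg : 1 ≤ g) (h2 : (2 : F) ≠ 0) (hq : 4 * g + 3 ≤ Nat.card F) :
    32 * g * (GoodB g F).ncard + Nat.card F ^ Pool.Agent.H859.PJ.ddA g ≤
      32 * g * Nat.card F ^ Pool.Agent.H859.PJ.ddA g := by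
  haveI := Fintype.ofFinite F
  set q := Nat.card F with hqd
  have hq0 : 0 < q := by omega
  set I : Set F[X] := {h | h.Monic ∧ Irreducible h ∧ h.natDegree = 2 * g} with hI
  have hIf : I.Finite := (fin_monic (2 * g)).subset fun h hh => ⟨hh.1, hh.2.2⟩
  -- the number of irreducible polynomials
  have hIc : q ^ (2 * g) ≤ 4 * g * I.ncard := by
    have h1 : q ^ (2 * g) ≤ 2 * g * I.ncard + 2 * q ^ (2 * g / 2) :=
      card_irr (F := F) (n := 2 * g) (by omega)
    rw [show 2 * g / 2 = g by omega] at h1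
    have h3 : 4 ≤ q ^ g := by
      calc 4 ≤ q := by omega
        _ = q ^ 1 := (pow_one q).symm
        _ ≤ q ^ g := Nat.pow_le_pow_right hq0 hg
    have h4 : q ^ (2 * g) = q ^ g * q ^ g := by rw [two_mul, pow_add]
    have h5 : 4 * q ^ g ≤ q ^ (2 * g) := by
      rw [h4]
      exact Nat.mul_le_mul_right _ h3
    have h6 : 2 * g * I.ncard + 2 * q ^ g ≤ 2 * g * I.ncard + q ^ (2 * g) / 2 := by omega
    have h7 : 4 * g * I.ncard = 2 * (2 * g * I.ncard) := by ring
    omega
  set Bad : Finset (Mt g F) := Finset.univ.filter fun B => B.IsSymm ∧ TypeOne g (chp B) ∧ ¬ Dist B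
    with hBad
  let ND : F[X] → Finset (Mt g F) := fun h =>
    Finset.univ.filter fun B => B.IsSymm ∧ chp B = X * h ∧ ¬ Dist B
  let W : F × F[X] → Finset (Mt g F) := fun x => (ND x.2).image fun B => B + x.1 • Jm g F
  let P : Finset (F × F[X]) := Finset.univ ×ˢ hIf.toFinset
  have hW : ∀ x : F × F[X], ∀ B ∈ W x, chp B = (X - C x.1) * x.2.comp (X - C x.1) := by
    intro x B hB
    obtain ⟨B₀, hB₀, rfl⟩ := Finset.mem_image.1 hB
    rw [chp_shift, (Finset.mem_filter.1 hB₀).2.2.1, mul_comp, X_comp]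
  have hsub : P.biUnion W ⊆ Bad := by
    intro B hB
    rw [Finset.mem_biUnion] at hB
    obtain ⟨x, hx, hB⟩ := hB
    have hx2 := (Set.Finite.mem_toFinset hIf).1 (Finset.mem_product.1 hx).2
    have hc := hW x B hB
    obtain ⟨B₀, hB₀, rfl⟩ := Finset.mem_image.1 hB
    have hB₀' := (Finset.mem_filter.1 hB₀).2
    rw [hBad, Finset.mem_filter]
    refine ⟨Finset.mem_univ _, shift_symm hB₀'.1 _, ⟨x.1, x.2.comp (X - C x.1),
      monic_comp' hx2.1 _, irr_comp' hx2.2.1 _, by rw [deg_comp', hx2.2.2], hc⟩, ?_⟩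
    intro hd
    apply hB₀'.2.2
    have := dist_shift hd (-x.1)
    rwa [add_assoc, ← add_smul, add_neg_cancel, zero_smul, add_zero] at this
  have hdis : (P : Set (F × F[X])).PairwiseDisjoint W := by
    intro x hx y hy hxy
    rw [Function.onFun, Finset.disjoint_left]
    intro B hB hB'
    apply hxy
    have hx2 := (Set.Finite.mem_toFinset hIf).1 (Finset.mem_product.1 (Finset.mem_coe.1 hx)).2
    have hy2 := (Set.Finite.mem_toFinset hIf).1 (Finset.mem_product.1 (Finset.mem_coe.1 hy)).2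
    have h1 := (hW x B hB).symm.trans (hW y B hB')
    obtain ⟨h3, h4⟩ := one_unique hg hx2.2.1 hy2.2.1 hx2.2.2 hy2.2.2 h1
    exact Prod.ext h3 h4
  have hcardW : ∀ x ∈ P, q ^ (g * (2 * g + 1)) ≤ 8 * (W x).card := by
    intro x hx
    have hx2 := (Set.Finite.mem_toFinset hIf).1 (Finset.mem_product.1 hx).2
    have h1 := card_nd hg h2 hq hx2.1 hx2.2.1 hx2.2.2
    have h3 : {B : Mt g F | B.IsSymm ∧ chp B = X * x.2 ∧ ¬ Dist B}.ncard = (ND x.2).card := by
      rw [← Set.ncard_coe_finset]
      congr 1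
      ext B
      simp [ND]
    have h4 : (W x).card = (ND x.2).card := by
      refine Finset.card_image_of_injective _ ?_
      intro B B' h
      exact add_right_cancel h
    rw [h4, ← h3]
    exact h1
  have hP : P.card = q * I.ncard := by
    rw [Finset.card_product, Finset.card_univ, Set.ncard_eq_toFinset_card I hIf, hqd,
      Nat.card_eq_fintype_card]
  have hbad : q * I.ncard * q ^ (g * (2 * g + 1)) ≤ 8 * Bad.card := by
    calc q * I.ncard * q ^ (g * (2 * g + 1)) = ∑ x ∈ P, q ^ (g * (2 * g + 1)) := by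
          rw [Finset.sum_const, hP, smul_eq_mul]
      _ ≤ ∑ x ∈ P, 8 * (W x).card := Finset.sum_le_sum hcardW
      _ = 8 * (P.biUnion W).card := by rw [Finset.card_biUnion hdis, Finset.mul_sum]
      _ ≤ 8 * Bad.card := Nat.mul_le_mul_left _ (Finset.card_le_card hsub)
  have hdd : Pool.Agent.H859.PJ.ddA g = 1 + 2 * g + g * (2 * g + 1) := by
    unfold Pool.Agent.H859.PJ.ddA; ring
  have hbad2 : q ^ Pool.Agent.H859.PJ.ddA g ≤ 32 * g * Bad.card := by
    calc q ^ Pool.Agent.H859.PJ.ddA g = q * q ^ (2 * g) * q ^ (g * (2 * g + 1)) := by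
          rw [hdd, pow_add, pow_add, pow_one]
      _ ≤ q * (4 * g * I.ncard) * q ^ (g * (2 * g + 1)) :=
          Nat.mul_le_mul_right _ (Nat.mul_le_mul_left _ hIc)
      _ = 4 * g * (q * I.ncard * q ^ (g * (2 * g + 1))) := by ring
      _ ≤ 4 * g * (8 * Bad.card) := Nat.mul_le_mul_left _ hbad
      _ = _ := by ring
  -- good and bad
  have hGB : (GoodB g F).ncard + Bad.card ≤ q ^ Pool.Agent.H859.PJ.ddA g := by
    refine le_trans ?_ (card_sym_le g)
    rw [← Set.ncard_coe_finset Bad, ← Set.ncard_union_eq]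
    · refine Set.ncard_le_ncard ?_ (Set.toFinite _)
      rintro B (hB | hB)
      · exact hB.1
      · rw [Finset.mem_coe, hBad, Finset.mem_filter] at hB
        exact hB.2.1
    · rw [Set.disjoint_left]
      intro B hB hB'
      rw [Finset.mem_coe, hBad, Finset.mem_filter] at hB'
      exact hB'.2.2.2 (hB.2 hB'.2.2.1)
  calc 32 * g * (GoodB g F).ncard + q ^ Pool.Agent.H859.PJ.ddA g
      ≤ 32 * g * (GoodB g F).ncard + 32 * g * Bad.card := Nat.add_le_add_left hbad2 _
    _ = 32 * g * ((GoodB g F).ncard + Bad.card) := by ring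
    _ ≤ _ := Nat.mul_le_mul_left _ hGB

end one

end Pool.Agent.H859.AL
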