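import Pool.Agent.H859.AL.Sh

/-!
# Almost all members of the family have a good twist by a divisor of a fixed polynomial
-/

set_option autoImplicit false
set_option linter.all false

open Polynomial Matrix IsDedekindDomain
open scoped Classical

namespace Pool.Agent.H859.AL

open Pool.Agent.N874.PP (nm)
open Pool.Agent.N352.PJ (Mt Jm chp form Dist Typ Reg uu dsc Cg DistMod)
open Pool.Agent.H859.PJ
open Pool.Agent.H859.TWC
open Pool.Agent.H859.N874.TW (Uni SplitS RamIrr selF)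
open Pool.Agent.H859.N874.JM (PartsA)
open Pool.Agent.H859.N415.PJMAIN (ht_card)

/-- The reduction of `f` at infinity is irreducible. -/
def IrrInf {k : Type} [Field k] (g N : ℕ) (f : k[X][X]) : Prop :=
  ∃ r : k[X], GoodRA g r ∧
    ∀ j ≤ 2 * g, (f.coeff j).coeff (2 * N * (2 * g + 1 - j)) = r.coeff j

/-- The family in the residue class of `F₁` modulo `m`. -/
def Fam {k : Type} [Field k] (g N : ℕ) (m : k[X]) (F₁ : k[X][X]) : Set k[X][X] :=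
  {f | HtA g (2 * N) f ∧ IrrInf g N f ∧ Squarefree (dsc g f) ∧ Cg m f F₁}

/-- `f` has a good twist by a divisor of the product of `T`. -/
def GoodTw {k : Type} [Field k] (K : Type) [Field K] [Algebra k[X] K] [IsFractionRing k[X] K]
    (T : Finset k[X]) (f : k[X][X]) : Prop :=
  ∃ J ⊆ T, Uni K T f (f.scaleRoots (∏ Q ∈ J, Q))

theorem uni_unshift {k : Type} [Field k] {K : Type} [Field K] [Algebra k[X] K]
    [IsFractionRing k[X] K] {T : Finset k[X]} {f : k[X][X]} (hm : f.Monic) {a D : k[X]}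
    (h : Uni K T f ((f.comp (X + C a)).scaleRoots D)) : Uni K T f (f.scaleRoots D) := by
  intro M _ _ _ _ _ _ R _ _ _ _ _ _ _ n hn hQ hP
  have h1 := h M R n hn hQ hP
  rw [scale_shift hm, Polynomial.map_comp, Polynomial.map_add, map_X, map_C] at h1
  exact selF_shift h1

theorem fam_pos {k : Type} [Field k] [Finite k] {g : ℕ} (hg : 1 ≤ g) (h2 : (2 : k) ≠ 0)
    {m : k[X]} {F₁ : k[X][X]} (hM : GoodM g m F₁) :
    ∃ c : ℝ, 0 < c ∧ ∃ N₀ : ℕ, ∀ N ≥ N₀, (Fam g N m F₁).Finite ∧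
      c * (Nat.card k : ℝ) ^ (2 * N * ddA g) ≤ ((Fam g N m F₁).ncard : ℝ) := by
  obtain ⟨r, hr⟩ := Pool.Agent.H859.Tch.gr g k hg
  obtain ⟨c, hc, h⟩ := famM hg h2 r hM
  obtain ⟨N₀, hN₀⟩ := h ∅ (fun _ => 0) (fun Q hQ => absurd hQ (Finset.notMem_empty Q))
    (fun Q hQ => absurd hQ (Finset.notMem_empty Q))
  have hfin : ∀ N, (Fam g N m F₁).Finite := fun N =>
    (ht_card g (2 * N)).1.subset fun f hf => hf.1
  refine ⟨c, hc, N₀, fun N hN => ⟨hfin N, ?_⟩⟩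
  have h1 := hN₀ N hN
  rw [Finset.prod_empty, Nat.cast_one, one_mul] at h1
  refine h1.trans ?_
  have h3 : {f : k[X][X] | FamM g N r ∅ (fun _ => 0) m F₁ f} ⊆ Fam g N m F₁ := fun f hf =>
    ⟨hf.fam.ht, ⟨r, hr, hf.fam.inf⟩, hf.fam.sq, hf.con⟩
  exact_mod_cast Set.ncard_le_ncard h3 (hfin N)

/-- **Almost all members of the family have a good twist.** -/
theorem almost (H : PartsA) (hEXP : S_EXPA) {k : Type} [Field k] [Finite k] {g : ℕ} (hg : 1 ≤ g)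
    (h2 : (2 : k) ≠ 0) (K : Type) [Field K] [Algebra k[X] K] [IsFractionRing k[X] K]
    {m : k[X]} {F₁ : k[X][X]} (hM : GoodM g m F₁) :
    ∃ C : ℝ, 0 < C ∧ ∀ T : Finset k[X],
      (∀ Q ∈ T, Q.Monic ∧ Irreducible Q ∧ 4 * g + 3 ≤ nm Q) → ∃ N₀ : ℕ, ∀ N ≥ N₀,
      ({f ∈ Fam g N m F₁ | ¬ GoodTw K T f}.ncard : ℝ) ≤
        C * (1 - 1 / (32 * g)) ^ T.card * ((Fam g N m F₁).ncard : ℝ) := by
  obtain ⟨c, hc, N₁, hN₁⟩ := fam_pos hg h2 hM
  set q : ℝ := (Nat.card k : ℝ) with hq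
  have hq0 : 0 < q := by rw [hq]; exact_mod_cast Nat.card_pos
  have hg' : (1 : ℝ) ≤ g := by exact_mod_cast hg
  have hδ0 : (0 : ℝ) ≤ 1 - 1 / (32 * g) := by
    rw [sub_nonneg, div_le_one (by positivity)]
    linarith
  refine ⟨2 ^ (g + 1) * q ^ ddA g / c, by positivity, fun T hT => ?_⟩
  have hTp : ∀ Q ∈ T, Q.Monic ∧ Irreducible Q := fun Q hQ => ⟨(hT Q hQ).1, (hT Q hQ).2.1⟩
  obtain ⟨N₂, hN₂⟩ := badT (T := T) hg h2 hEXP hTp
  refine ⟨max (max N₁ N₂) ((∏ Q ∈ T, Q).natDegree + 1), fun N hN => ?_⟩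
  obtain ⟨hfin, hF⟩ := hN₁ N (by omega)
  obtain ⟨hLfin, hL⟩ := hN₂ N (by omega)
  have hsub : {f ∈ Fam g N m F₁ | ¬ GoodTw K T f} ⊆ {f : k[X][X] | LBadT g N T f} := by
    rintro f ⟨⟨h1, ⟨r, hr, hinf⟩, hsq, -⟩, hno⟩
    refine bad_T H K h2 hg hTp (by omega) hr h1 hinf hsq ?_
    rintro ⟨J, hJ, a, hU⟩
    exact hno ⟨J, hJ, uni_unshift h1.mon hU⟩
  have h1 : (({f ∈ Fam g N m F₁ | ¬ GoodTw K T f}.ncard : ℕ) : ℝ) ≤
      ({f : k[X][X] | LBadT g N T f}.ncard : ℝ) := by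
    exact_mod_cast Set.ncard_le_ncard hsub hLfin
  refine h1.trans ?_
  have ha0 : (0 : ℝ) < ∏ Q ∈ T, (nm Q : ℝ) ^ ddA g := by
    refine Finset.prod_pos fun Q _ => pow_pos ?_ _
    have : 0 < nm Q := pow_pos Nat.card_pos _
    exact_mod_cast this
  have hsm := prod_small hg h2 hTp fun Q hQ => (hT Q hQ).2.2
  have hL' : (∏ Q ∈ T, (nm Q : ℝ) ^ ddA g) * ({f : k[X][X] | LBadT g N T f}.ncard : ℝ) ≤
      2 ^ (g + 1) * ((∏ Q ∈ T, ((GoodB g (AdjoinRoot Q)).ncard : ℝ)) *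
        q ^ ((2 * N + 1) * ddA g)) := by
    rw [hq]
    exact_mod_cast hL
  have h3 : (∏ Q ∈ T, (nm Q : ℝ) ^ ddA g) * ({f : k[X][X] | LBadT g N T f}.ncard : ℝ) ≤
      (∏ Q ∈ T, (nm Q : ℝ) ^ ddA g) * ((2 ^ (g + 1) * q ^ ddA g / c) *
        (1 - 1 / (32 * g)) ^ T.card * (c * q ^ (2 * N * ddA g))) := by
    calc (∏ Q ∈ T, (nm Q : ℝ) ^ ddA g) * ({f : k[X][X] | LBadT g N T f}.ncard : ℝ)
        ≤ 2 ^ (g + 1) * ((∏ Q ∈ T, ((GoodB g (AdjoinRoot Q)).ncard : ℝ)) *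
          q ^ ((2 * N + 1) * ddA g)) := hL'
      _ ≤ 2 ^ (g + 1) * (((1 - 1 / (32 * g)) ^ T.card * ∏ Q ∈ T, (nm Q : ℝ) ^ ddA g) *
          q ^ ((2 * N + 1) * ddA g)) := by gcongr
      _ = _ := by
          have e : q ^ ((2 * N + 1) * ddA g) = q ^ (2 * N * ddA g) * q ^ ddA g := by
            rw [← pow_add]
            congr 1
            ring
          rw [e]
          generalize (1 - 1 / (32 * (g : ℝ))) ^ T.card = ρ
          field_simp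
  have h4 := le_of_mul_le_mul_left h3 ha0
  exact h4.trans (mul_le_mul_of_nonneg_left hF (by positivity))

/-- Everything together. -/
theorem final_almost {k : Type} [Field k] [Finite k] {g : ℕ} (hg : 1 ≤ g)
    (h2 : (2 : k) ≠ 0) (K : Type) [Field K] [Algebra k[X] K] [IsFractionRing k[X] K]
    {m : k[X]} {F₁ : k[X][X]} (hM : GoodM g m F₁) :
    ∃ C : ℝ, 0 < C ∧ ∀ T : Finset k[X],
      (∀ Q ∈ T, Q.Monic ∧ Irreducible Q ∧ 4 * g + 3 ≤ nm Q) → ∃ N₀ : ℕ, ∀ N ≥ N₀,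
      ({f ∈ Fam g N m F₁ | ¬ GoodTw K T f}.ncard : ℝ) ≤
        C * (1 - 1 / (32 * g)) ^ T.card * ((Fam g N m F₁).ncard : ℝ) :=
  almost Pool.Agent.H859.N874.JM.parts Pool.Agent.H859.N401.PJ.exp_ineq hg h2 K hM

end Pool.Agent.H859.AL
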