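import Pool.Agent.H859.AL.Fin

/-!
# The number of non-distinguished operators over a finite field
-/

set_option autoImplicit false
set_option linter.all false

open Polynomial Matrix
open scoped Classical

namespace Pool.Agent.H859.AL

open Pool.Agent.N352.PJ (Mt Jm chp form Dist)
open Pool.Agent.N644.PQ.HunB
open Pool.Agent.N50.PJ

section quad

variable {R : Type} [CommRing R] {g : ℕ} {f : R[X]}

theorem quad (w : R[X]) (η : Fin (2 * g + 1) → R) :
    η ⬝ᵥ (Gr g f w *ᵥ η) = ((w * (∑ i : Fin (2 * g + 1), C (η i) * X ^ (i : ℕ)) ^ 2) %ₘ f).coeff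
      (2 * g) := by
  have hL : ∀ z : R[X], (z %ₘ f).coeff (2 * g) = (lcoeff R (2 * g) ∘ₗ modByMonicHom f) z :=
    fun z => rfl
  rw [hL, sq, Finset.sum_mul_sum, Finset.mul_sum, map_sum]
  show ∑ i, η i * ∑ j, Gr g f w i j * η j = _
  refine Finset.sum_congr rfl fun i _ => ?_
  rw [Finset.mul_sum, Finset.mul_sum, map_sum]
  refine Finset.sum_congr rfl fun j _ => ?_
  have e : w * (C (η i) * X ^ (i : ℕ) * (C (η j) * X ^ (j : ℕ))) =
      (η i * η j) • (w * X ^ ((i : ℕ) + j)) := by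
    rw [smul_eq_C_mul, C_mul, pow_add]
    ring
  rw [e, map_smul, ← hL, smul_eq_mul]
  simp only [Gr, Matrix.of_apply]
  ring

end quad

section field

variable {F : Type} [Field F] [Finite F] {g : ℕ}

/-- Many non-distinguished operators with the characteristic polynomial `x h(x)`. -/
theorem card_nd (hg : 1 ≤ g) (h2 : (2 : F) ≠ 0) (hq : 4 * g + 3 ≤ Nat.card F) {h : F[X]}
    (hm : h.Monic) (hi : Irreducible h) (hd : h.natDegree = 2 * g) :
    Nat.card F ^ (g * (2 * g + 1)) ≤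
      8 * {B : Mt g F | B.IsSymm ∧ chp B = X * h ∧ ¬ Dist B}.ncard := by
  haveI := Fintype.ofFinite F
  obtain ⟨u, u', huu, ⟨s, hs⟩, hnu⟩ := exists_u hg h2 hm hi hd
  obtain ⟨f, hfdef⟩ : ∃ f, f = X * h := ⟨_, rfl⟩
  rw [← hfdef] at huu hs hnu ⊢
  have hfm : f.Monic := by rw [hfdef]; exact monic_X.mul hm
  have hfd : f.natDegree = 2 * g + 1 := by
    rw [hfdef, natDegree_X_mul hm.ne_zero, hd]
  have hJu : IsUnit (Jm g F).det := by
    rw [isUnit_iff_ne_zero]
    intro h0
    have := congrArg Matrix.det (J_sq (g := g) (R := F))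
    rw [Matrix.det_mul, h0, zero_mul, Matrix.det_one] at this
    exact zero_ne_one this
  obtain ⟨T0, hT0⟩ : ∃ T, T * Jm g F * Tᵀ = Gr g f u := by
    refine Pool.Agent.N747.PF.congr_of_det ?_ (isUnit_iff_ne_zero.2 h2) J_T (Gr_symm u) hJu
      (Gr_det hfm hfd huu) ⟨s, ?_⟩
    · intro x hx
      rw [isUnit_iff_ne_zero, not_not] at hx
      rw [hx]
      exact IsNilpotent.zero
    · rw [Gr_eq hfm hfd, Matrix.det_mul, hs]
      linear_combination s ^ 2 * det_Gr_J (g := g) hfm hfd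
  -- all `T`
  have hTu : ∀ T : Mt g F, T * Jm g F * Tᵀ = Gr g f u → IsUnit T.det := by
    intro T hT
    have h3 := congrArg Matrix.det hT
    rw [Matrix.det_mul, Matrix.det_mul, Matrix.det_transpose] at h3
    have h4 := Gr_det (g := g) hfm hfd huu
    rw [← h3] at h4
    exact isUnit_of_mul_isUnit_right h4
  let Bm : Mt g F → Mt g F := fun T => T⁻¹ * Mu g f X * T * Jm g F
  have hB1 : ∀ T : Mt g F, T * Jm g F * Tᵀ = Gr g f u →
      Bm T = T⁻¹ * Gr g f (X * u) * (T⁻¹)ᵀ := by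
    intro T hT
    have h3 : Tᵀ * (T⁻¹)ᵀ = 1 := by
      rw [← Matrix.transpose_mul, Matrix.nonsing_inv_mul _ (hTu T hT), Matrix.transpose_one]
    have h4 : Gr g f (X * u) = Mu g f X * Gr g f u := by
      rw [Gr_eq hfm hfd (X * u), ← Mu_mul hfm hfd, Matrix.mul_assoc, ← Gr_eq hfm hfd]
    rw [h4, ← hT]
    show T⁻¹ * Mu g f X * T * Jm g F = _
    calc T⁻¹ * Mu g f X * T * Jm g F = T⁻¹ * Mu g f X * T * Jm g F * (Tᵀ * (T⁻¹)ᵀ) := by
          rw [h3, Matrix.mul_one]
      _ = _ := by simp only [Matrix.mul_assoc]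
  have hBs : ∀ T : Mt g F, T * Jm g F * Tᵀ = Gr g f u → (Bm T).IsSymm := by
    intro T hT
    rw [hB1 T hT]
    exact symm_act (Gr_symm _)
  have hBJ : ∀ T : Mt g F, Jm g F * Bm T = (Jm g F * T⁻¹) * Mu g f X * (T * Jm g F) := by
    intro T
    show Jm g F * (T⁻¹ * Mu g f X * T * Jm g F) = _
    simp only [Matrix.mul_assoc]
  have hTJ : ∀ T : Mt g F, T * Jm g F * Tᵀ = Gr g f u →
      (T * Jm g F) * (Jm g F * T⁻¹) = 1 := by
    intro T hT
    calc (T * Jm g F) * (Jm g F * T⁻¹) = T * (Jm g F * Jm g F) * T⁻¹ := by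
          simp only [Matrix.mul_assoc]
      _ = 1 := by rw [J_sq, Matrix.mul_one, Matrix.mul_nonsing_inv _ (hTu T hT)]
  have hBc : ∀ T : Mt g F, T * Jm g F * Tᵀ = Gr g f u → chp (Bm T) = f := by
    intro T hT
    unfold chp
    rw [hBJ, Matrix.charpoly_mul_comm, ← Matrix.mul_assoc, hTJ T hT, Matrix.one_mul,
      charpoly_Mu hfm hfd]
  have hBp : ∀ T : Mt g F, T * Jm g F * Tᵀ = Gr g f u → ∀ m : ℕ, (Jm g F * Bm T) ^ m =
      (Jm g F * T⁻¹) * Mu g f (X ^ m) * (T * Jm g F) := by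
    intro T hT m
    have e := hTJ T hT
    have e' : (Jm g F * T⁻¹) * (T * Jm g F) = 1 := mul_eq_one_comm.1 e
    induction m with
    | zero =>
      rw [pow_zero, pow_zero, Mu_one hfm hfd (by rw [sub_self]; exact dvd_zero _), Matrix.mul_one,
        e']
    | succ m ih =>
      rw [pow_succ, ih, hBJ, pow_succ, ← Mu_mul hfm hfd]
      calc (Jm g F * T⁻¹) * Mu g f (X ^ m) * (T * Jm g F) *
            ((Jm g F * T⁻¹) * Mu g f X * (T * Jm g F))
          = (Jm g F * T⁻¹) * Mu g f (X ^ m) * ((T * Jm g F) * (Jm g F * T⁻¹)) * Mu g f X *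
            (T * Jm g F) := by simp only [Matrix.mul_assoc]
        _ = _ := by rw [e, Matrix.mul_one]; simp only [Matrix.mul_assoc]
  have hBd : ∀ T : Mt g F, T * Jm g F * Tᵀ = Gr g f u → ¬ Dist (Bm T) := by
    rintro T hT ⟨ξ, hξ⟩
    set η := ξ ᵥ* T⁻¹ with hη
    apply hnu
    refine ⟨∑ i : Fin (2 * g + 1), C (η i) * X ^ (i : ℕ), ?_⟩
    refine nondeg hfm hfd fun m hm' => ?_
    have h3 : form (Bm T) m ξ = η ⬝ᵥ (Gr g f (u * X ^ m) *ᵥ η) := by
      unfold form
      rw [hBp T hT]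
      have h4 : Gr g f (u * X ^ m) = Mu g f (X ^ m) * Gr g f u := by
        rw [mul_comm u (X ^ m), Gr_eq hfm hfd (X ^ m * u), ← Mu_mul hfm hfd, Matrix.mul_assoc,
          ← Gr_eq hfm hfd]
      have h5 : T * Jm g F = Gr g f u * (T⁻¹)ᵀ := by
        have h6 : Tᵀ * (T⁻¹)ᵀ = 1 := by
          rw [← Matrix.transpose_mul, Matrix.nonsing_inv_mul _ (hTu T hT), Matrix.transpose_one]
        rw [← hT, Matrix.mul_assoc, h6, Matrix.mul_one]
      have h7 : Jm g F * ((Jm g F * T⁻¹) * Mu g f (X ^ m) * (T * Jm g F)) =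
          T⁻¹ * Gr g f (u * X ^ m) * (T⁻¹)ᵀ := by
        rw [h5, h4]
        simp only [Matrix.mul_assoc, JJ_mul]
      rw [h7, ← Matrix.mulVec_mulVec, ← Matrix.mulVec_mulVec, Matrix.dotProduct_mulVec,
        Matrix.mulVec_transpose]
    rw [hξ m hm', quad] at h3
    rw [sub_mul, one_mul, Polynomial.sub_modByMonic, coeff_sub]
    have h8 : u * (∑ i : Fin (2 * g + 1), C (η i) * X ^ (i : ℕ)) ^ 2 * X ^ m =
        u * X ^ m * (∑ i : Fin (2 * g + 1), C (η i) * X ^ (i : ℕ)) ^ 2 := by ring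
    rw [h8, ← h3, X_pow_mod hfm hfd (by omega), coeff_X_pow]
    by_cases h9 : m = 2 * g
    · rw [if_pos h9, if_pos h9.symm, sub_self]
    · rw [if_neg h9, if_neg (fun h' => h9 h'.symm), sub_self]
  -- the idempotent-like element `e`
  have hco : IsCoprime (X : F[X]) h := by
    rw [irreducible_X.coprime_iff_not_dvd]
    intro hdv
    have h3 := eq_of_monic_of_associated monic_X hm
      ((irreducible_X.dvd_irreducible_iff_associated hi).1 hdv)
    rw [← h3, natDegree_X] at hd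
    omega
  obtain ⟨a, b, hab⟩ := hco
  -- `e = 1` modulo `X`, `e = -1` modulo `h`
  obtain ⟨e, he⟩ : ∃ e : F[X], e = b * h - a * X := ⟨_, rfl⟩
  have heX : X ∣ e - 1 := ⟨-2 * a, by rw [he]; linear_combination hab⟩
  have heh : h ∣ e + 1 := ⟨2 * b, by rw [he]; linear_combination -hab⟩
  have hXh : ∀ {z : F[X]}, X ∣ z → h ∣ z → f ∣ z := fun h3 h4 => by
    rw [hfdef]; exact IsCoprime.mul_dvd ⟨a, b, hab⟩ h3 h4
  let R4 : Finset (Mt g F) := {Mu g f 1, Mu g f (-1), Mu g f e, Mu g f (-e)}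
  have hR4 : R4.card ≤ 4 := Finset.card_le_four
  have hmem : ∀ p : F[X], f ∣ p ^ 2 - 1 → Mu g f p ∈ R4 := by
    intro p hp
    have e1 : p ^ 2 - 1 = (p - 1) * (p + 1) := by ring
    rw [e1, hfdef] at hp
    have hX : X ∣ (p - 1) * (p + 1) := (dvd_mul_right _ _).trans hp
    have hh : h ∣ (p - 1) * (p + 1) := (dvd_mul_left _ _).trans hp
    rcases (irreducible_X.prime.dvd_or_dvd hX) with h3 | h3 <;>
      rcases hi.prime.dvd_or_dvd hh with h4 | h4
    · rw [Mu_congr hfm (hXh h3 h4)]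
      simp [R4]
    · have : f ∣ p - e := hXh (by
          have := dvd_sub h3 heX
          rwa [show p - 1 - (e - 1) = p - e by ring] at this) (by
          have := dvd_sub h4 heh
          rwa [show p + 1 - (e + 1) = p - e by ring] at this)
      rw [Mu_congr hfm this]
      simp [R4]
    · have : f ∣ p - -e := hXh (by
          have := dvd_add h3 heX
          rwa [show p + 1 + (e - 1) = p - -e by ring] at this) (by
          have := dvd_add h4 heh
          rwa [show p - 1 + (e + 1) = p - -e by ring] at this)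
      rw [Mu_congr hfm this]
      simp [R4]
    · have : f ∣ p - -1 := by rw [sub_neg_eq_add]; exact hXh h3 h4
      rw [Mu_congr hfm this]
      simp [R4]
  -- counting
  set OF : Finset (Mt g F) := Finset.univ.filter fun M => M * Jm g F * Mᵀ = Jm g F with hOF
  set t : Finset (Mt g F) := Finset.univ.filter fun B => B.IsSymm ∧ chp B = f ∧ ¬ Dist B with ht
  have hT0M : ∀ M ∈ OF, (T0 * M) * Jm g F * (T0 * M)ᵀ = Gr g f u := by
    intro M hM
    rw [hOF, Finset.mem_filter] at hM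
    rw [Matrix.transpose_mul, ← hT0]
    calc T0 * M * Jm g F * (Mᵀ * T0ᵀ) = T0 * (M * Jm g F * Mᵀ) * T0ᵀ := by
          simp only [Matrix.mul_assoc]
      _ = _ := by rw [hM.2]
  have hcount : OF.card ≤ 4 * t.card := by
    refine Finset.card_le_mul_card_image_of_maps_to (f := fun M => Bm (T0 * M)) ?_ 4 ?_
    · intro M hM
      rw [ht, Finset.mem_filter]
      have h3 := hT0M M hM
      exact ⟨Finset.mem_univ _, hBs _ h3, hBc _ h3, hBd _ h3⟩
    · intro B _
      by_cases hemp : (OF.filter fun M => Bm (T0 * M) = B) = ∅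
      · rw [hemp]; simp
      · obtain ⟨M₁, hM₁⟩ := Finset.nonempty_iff_ne_empty.2 hemp
        rw [Finset.mem_filter] at hM₁
        set T₁ := T0 * M₁ with hT₁
        have hT1 := hT0M M₁ hM₁.1
        refine le_trans ?_ hR4
        refine Finset.card_le_card_of_injOn (fun M => (T0 * M) * T₁⁻¹) ?_ ?_
        · intro M hM
          rw [Finset.mem_coe, Finset.mem_filter] at hM
          show (T0 * M) * T₁⁻¹ ∈ (R4 : Set (Mt g F))
          set T := T0 * M with hTdef
          have hT := hT0M M hM.1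
          have hBB : Bm T = Bm T₁ := by rw [hM.2, hM₁.2]
          have hconj : T⁻¹ * Mu g f X * T = T₁⁻¹ * Mu g f X * T₁ := by
            have h3 : T⁻¹ * Mu g f X * T * Jm g F = T₁⁻¹ * Mu g f X * T₁ * Jm g F := hBB
            calc T⁻¹ * Mu g f X * T = T⁻¹ * Mu g f X * T * Jm g F * Jm g F := by
                  rw [Matrix.mul_assoc _ (Jm g F), J_sq, Matrix.mul_one]
              _ = T₁⁻¹ * Mu g f X * T₁ * Jm g F * Jm g F := by rw [h3]
              _ = _ := by rw [Matrix.mul_assoc _ (Jm g F), J_sq, Matrix.mul_one]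
          have hTT : T * T⁻¹ = 1 := Matrix.mul_nonsing_inv _ (hTu T hT)
          have hTT1 : T₁ * T₁⁻¹ = 1 := Matrix.mul_nonsing_inv _ (hTu T₁ hT1)
          have hTT1' : T₁⁻¹ * T₁ = 1 := Matrix.nonsing_inv_mul _ (hTu T₁ hT1)
          have hcomm : (T * T₁⁻¹) * Mu g f X = Mu g f X * (T * T₁⁻¹) := by
            calc (T * T₁⁻¹) * Mu g f X = T * (T₁⁻¹ * Mu g f X * T₁) * T₁⁻¹ := by
                  rw [Matrix.mul_assoc T, Matrix.mul_assoc T, Matrix.mul_assoc _ T₁, hTT1,
                    Matrix.mul_one]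
              _ = T * (T⁻¹ * Mu g f X * T) * T₁⁻¹ := by rw [hconj]
              _ = (T * T⁻¹) * Mu g f X * (T * T₁⁻¹) := by simp only [Matrix.mul_assoc]
              _ = _ := by rw [hTT, Matrix.one_mul]
          obtain ⟨p, hp⟩ := comm_Mu hfm hfd hcomm
          have hG : Mu g f p * Gr g f u * (Mu g f p)ᵀ = Gr g f u := by
            rw [← hp, Matrix.transpose_mul]
            have h3 : T₁ᵀ * (T₁⁻¹)ᵀ = 1 := by
              rw [← Matrix.transpose_mul, hTT1', Matrix.transpose_one]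
            calc T * T₁⁻¹ * Gr g f u * ((T₁⁻¹)ᵀ * Tᵀ)
                = T * T₁⁻¹ * (T₁ * Jm g F * T₁ᵀ) * ((T₁⁻¹)ᵀ * Tᵀ) := by rw [hT1]
              _ = T * (T₁⁻¹ * T₁) * Jm g F * (T₁ᵀ * (T₁⁻¹)ᵀ) * Tᵀ := by
                  simp only [Matrix.mul_assoc]
              _ = T * Jm g F * Tᵀ := by rw [hTT1', h3, Matrix.mul_one, Matrix.mul_one]
              _ = _ := hT
          rw [← Gr_sq hfm hfd (h := p ^ 2 * u) (by rw [sub_self]; exact dvd_zero _)] at hG
          have h5 : f ∣ p ^ 2 * u - u := by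
            refine nondeg hfm hfd fun m hm' => ?_
            have h6 := congrFun (congrFun hG 0) ⟨m, by omega⟩
            simp only [Gr, Matrix.of_apply] at h6
            rw [sub_mul, Polynomial.sub_modByMonic, coeff_sub, sub_eq_zero]
            simpa using h6
          have h7 : f ∣ p ^ 2 - 1 := by
            obtain ⟨z, hz⟩ := h5
            obtain ⟨w, hw⟩ := huu
            refine ⟨z * u' - (p ^ 2 - 1) * w, ?_⟩
            linear_combination u' * hz - (p ^ 2 - 1) * hw
          rw [hp]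
          exact hmem p h7
        · intro M hM M' hM' hMM
          rw [Finset.mem_coe, Finset.mem_filter] at hM hM'
          have hTT1' : T₁⁻¹ * T₁ = 1 := Matrix.nonsing_inv_mul _ (hTu T₁ hT1)
          have h3 : T0 * M = T0 * M' := by
            calc T0 * M = (T0 * M) * T₁⁻¹ * T₁ := by
                  rw [Matrix.mul_assoc _ T₁⁻¹, hTT1', Matrix.mul_one]
              _ = (T0 * M') * T₁⁻¹ * T₁ := by
                  have h4 : (T0 * M) * T₁⁻¹ = (T0 * M') * T₁⁻¹ := hMM
                  rw [h4]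
              _ = _ := by rw [Matrix.mul_assoc _ T₁⁻¹, hTT1', Matrix.mul_one]
          have h5 : T0⁻¹ * T0 = 1 := Matrix.nonsing_inv_mul _ (hTu T0 hT0)
          calc M = T0⁻¹ * (T0 * M) := by rw [← Matrix.mul_assoc, h5, Matrix.one_mul]
            _ = T0⁻¹ * (T0 * M') := by rw [h3]
            _ = M' := by rw [← Matrix.mul_assoc, h5, Matrix.one_mul]
  have h3 := card_OO h2 hq
  have h4 : (OO g F).ncard = OF.card := by
    rw [← Set.ncard_coe_finset]
    congr 1
    ext M
    simp [OO, hOF]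
  have h5 : {B : Mt g F | B.IsSymm ∧ chp B = f ∧ ¬ Dist B}.ncard = t.card := by
    rw [← Set.ncard_coe_finset]
    congr 1
    ext M
    simp [ht]
  rw [h4] at h3
  rw [h5]
  omega

end field

end Pool.Agent.H859.AL
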