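import Pool.Agent.H859.AL.Cuse
import Mathlib.RingTheory.DedekindDomain.IntegralClosure

/-!
# Sequences of extensions
-/

set_option autoImplicit false
set_option linter.all false

open Polynomial Filter Topology IsDedekindDomain
open scoped Classical

namespace Pool.Agent.H859.AL

open Pool.Agent.N352.PJ (dsc Cg)
open Pool.Agent.H859.PJ
open Pool.Agent.H859.TWC
open Pool.Agent.N874.Jac (UniquelyTwoDivisible ShaTwoTrivial)

/-- A good twist of degree at most `w` over all the fields between `K` and `L`. -/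
def Gd {k : Type} [Field k] (K : Type) [Field K] [Algebra k[X] K]
    (L : Type) [Field L] [Algebra K L] [Algebra k[X] L] [IsScalarTower k[X] K L]
    (w : ℕ) (f : k[X][X]) : Prop :=
  ∃ D : k[X], Squarefree D ∧ D.natDegree ≤ w ∧
    ∀ (E : IntermediateField K L) (R : Type) [CommRing R] [IsDedekindDomain R] [Algebra R E]
      [IsFractionRing R E] [Algebra k[X] R] [IsScalarTower k[X] R E] [IsIntegralClosure R k[X] E],
      UniquelyTwoDivisible ((f.scaleRoots D).map (algebraMap k[X] E)) ∧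
        ShaTwoTrivial ((f.scaleRoots D).map (algebraMap k[X] E)) R

/-- The exceptional set over one extension; the constant does not depend on the extension. -/
theorem level {k : Type} [Field k] [Finite k] {g : ℕ} (hg : 1 ≤ g) (h2 : (2 : k) ≠ 0)
    (K : Type) [Field K] [Algebra k[X] K] [IsFractionRing k[X] K] {m : k[X]} (hm : m ≠ 0)
    {f₁ : k[X][X]} (hf₁ : f₁.Monic) (hd₁ : f₁.natDegree = 2 * g + 1)
    (hdisc : ∀ P : k[X], Irreducible P → P ∣ m → ¬ P ^ 2 ∣ f₁.discr) :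
    ∃ C : ℝ, ∀ (L : Type) [Field L] [Algebra K L] [Algebra k[X] L] [IsScalarTower k[X] K L]
      [FiniteDimensional K L] [IsGalois K L] (n : ℕ), Module.finrank K L = 2 ^ n →
      (∀ P : k[X], Irreducible P →
        (∀ w : HeightOneSpectrum (integralClosure k[X] L),
          algebraMap k[X] (integralClosure k[X] L) P ∈ w.asIdeal →
          algebraMap k[X] (integralClosure k[X] L) P ∉ w.asIdeal ^ 2) ∨
        (P ∣ m ∧ Irreducible (f₁.map (Ideal.Quotient.mk (Ideal.span {P}))))) →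
      ∀ w : ℕ → ℕ, Tendsto w atTop atTop → ∀ r : ℕ, ∀ᶠ N : ℕ in atTop,
        ({f ∈ Fam g N (m ^ 2) f₁ | ¬ Gd K L (w N) f}.ncard : ℝ) ≤
          C * (1 - 1 / (32 * g)) ^ r * ((Fam g N (m ^ 2) f₁).ncard : ℝ) := by
  have hGM := goodM_sq hm hf₁ hd₁ hdisc
  obtain ⟨C, -, hC⟩ := final_almost hg h2 K hGM
  refine ⟨C, fun L _ _ _ _ _ _ n hn hram w hw r => ?_⟩
  haveI : Algebra.IsSeparable K L := IsGalois.to_isSeparable
  haveI : IsDedekindDomain (integralClosure k[X] L) := integralClosure.isDedekindDomain k[X] K L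
  haveI : IsFractionRing (integralClosure k[X] L) L :=
    integralClosure.isFractionRing_of_finite_extension K L
  obtain ⟨T, hTr, hT⟩ := exists_T (k := k) (K := K) L (integralClosure k[X] L) (4 * g + 3) r
  obtain ⟨N₀, hN₀⟩ := hC T fun Q hQ => ⟨(hT Q hQ).1, (hT Q hQ).2.1, (hT Q hQ).2.2.2.2⟩
  filter_upwards [eventually_ge_atTop N₀,
    hw.eventually_ge_atTop (∏ Q ∈ T, Q).natDegree] with N hN hwN
  have h1 := hN₀ N hN
  rw [hTr] at h1
  refine le_trans ?_ h1
  have hfin' : {f ∈ Fam g N (m ^ 2) f₁ | ¬ GoodTw K T f}.Finite :=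
    ((Pool.Agent.H859.N415.PJMAIN.ht_card (k := k) g (2 * N)).1.subset fun f hf => hf.1.1)
  have hT0 : (∏ Q ∈ T, Q) ≠ 0 := Finset.prod_ne_zero_iff.2 fun Q hQ => (hT Q hQ).2.1.ne_zero
  have hTsq : Squarefree (∏ Q ∈ T, Q) := by
    refine Finset.squarefree_prod_of_pairwise_isCoprime ?_ fun Q hQ => (hT Q hQ).2.1.squarefree
    intro P hP Q hQ hPQ
    refine ((hT P hP).2.1.coprime_iff_not_dvd.2 fun hd => hPQ ?_).isRelPrime
    exact Polynomial.eq_of_monic_of_associated (hT P hP).1 (hT Q hQ).1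
      ((hT P hP).2.1.associated_of_dvd (hT Q hQ).2.1 hd)
  have hsub : {f ∈ Fam g N (m ^ 2) f₁ | ¬ Gd K L (w N) f} ⊆
      {f ∈ Fam g N (m ^ 2) f₁ | ¬ GoodTw K T f} := by
    rintro f ⟨hf, hno⟩
    refine ⟨hf, fun hgt => hno ?_⟩
    obtain ⟨D, hD, h⟩ := good_use h2 K
      (fun Q hQ => ⟨(hT Q hQ).1, (hT Q hQ).2.1⟩) hf.1 hf.2.1 hf.2.2.1 hgt
    refine ⟨D, hTsq.squarefree_of_dvd hD, (natDegree_le_of_dvd hD hT0).trans hwN, ?_⟩
    intro E R' _ _ _ _ _ _ _
    refine h L (integralClosure k[X] L) n hn (fun Q hQ w hw => (hT Q hQ).2.2.1 w hw)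
      (fun P hP => ?_) E R'
    rcases hram P hP with h | ⟨h, h'⟩
    · exact Or.inl h
    · right
      have hc : Cg P f f₁ := fun j =>
        (h.trans (dvd_pow_self m two_ne_zero)).trans (hf.2.2.2 j)
      rw [cg_map hc]
      exact h'
  exact_mod_cast Set.ncard_le_ncard hsub hfin'

/-- The number of tuples. -/
theorem ncard_tuples {r : ℕ} {α : Type} (s : Fin r → Set α) (hs : ∀ j, (s j).Finite) :
    {f : Fin r → α | ∀ j, f j ∈ s j}.Finite ∧
    {f : Fin r → α | ∀ j, f j ∈ s j}.ncard = ∏ j, (s j).ncard := by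
  have e : {f : Fin r → α | ∀ j, f j ∈ s j} = Set.pi Set.univ s := by
    ext f
    simp
  rw [e]
  refine ⟨Set.Finite.pi' hs |>.subset (by intro f hf; simpa using hf), ?_⟩
  rw [← Nat.card_coe_set_eq, Nat.card_congr (Equiv.Set.univPi s), Nat.card_pi]
  exact Finset.prod_congr rfl fun j _ => Nat.card_coe_set_eq _

/-- Density one for tuples. -/
theorem tuples_one {r : ℕ} {α : Type} (F : Fin r → ℕ → Set α) (hfin : ∀ j N, (F j N).Finite)
    (G : Fin r → ℕ → α → Prop)
    (h : ∀ j, Tendsto (fun N => ({f ∈ F j N | G j N f}.ncard : ℝ) / ((F j N).ncard : ℝ)) atTop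
      (𝓝 1)) :
    Tendsto (fun N => ({f : Fin r → α | (∀ j, f j ∈ F j N) ∧ ∀ j, G j N (f j)}.ncard : ℝ) /
      ({f : Fin r → α | ∀ j, f j ∈ F j N}.ncard : ℝ)) atTop (𝓝 1) := by
  have h1 : ∀ N, ({f : Fin r → α | (∀ j, f j ∈ F j N) ∧ ∀ j, G j N (f j)}.ncard : ℝ) /
      ({f : Fin r → α | ∀ j, f j ∈ F j N}.ncard : ℝ) =
      ∏ j, ({f ∈ F j N | G j N f}.ncard : ℝ) / ((F j N).ncard : ℝ) := by
    intro N
    have e : {f : Fin r → α | (∀ j, f j ∈ F j N) ∧ ∀ j, G j N (f j)} =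
        {f : Fin r → α | ∀ j, f j ∈ {f ∈ F j N | G j N f}} := by
      ext f
      constructor
      · rintro ⟨h1, h2⟩ j
        exact ⟨h1 j, h2 j⟩
      · intro h
        exact ⟨fun j => (h j).1, fun j => (h j).2⟩
    rw [e, (ncard_tuples _ fun j => (hfin j N).subset (Set.sep_subset _ _)).2,
      (ncard_tuples _ fun j => hfin j N).2, Nat.cast_prod, Nat.cast_prod, Finset.prod_div_distrib]
  simp_rw [h1]
  have h2 := tendsto_finset_prod (Finset.univ : Finset (Fin r)) fun j _ => h j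
  simpa using h2

end Pool.Agent.H859.AL
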