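import Pool.Agent.H859.AL.Tr

/-!
# The 2-Selmer group does not change under translations
-/

set_option autoImplicit false
set_option linter.all false

open Polynomial IsDedekindDomain
open scoped Classical

namespace Pool.Agent.H859.AL

open Pool.Agent.N874.JM (SelF LocF)

/-- translation of the quotient -/
noncomputable def shEquiv {M : Type} [Field M] (f : M[X]) (b : M) :
    AdjoinRoot f ≃ₐ[M] AdjoinRoot (f.comp (X + C b)) :=
  Ideal.quotientEquivAlg (Ideal.span {f}) (Ideal.span {f.comp (X + C b)}) (algEquivAevalXAddC b)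
    (by
      rw [Ideal.map_span, Set.image_singleton]
      congr 2)

theorem shEquiv_mk {M : Type} [Field M] (f h : M[X]) (b : M) :
    shEquiv f b (AdjoinRoot.mk f h) = AdjoinRoot.mk (f.comp (X + C b)) (h.comp (X + C b)) := by
  have h1 : h.comp (X + C b) = algEquivAevalXAddC b h := by
    simp [algEquivAevalXAddC, comp_eq_aeval]
  rw [h1]
  rfl

theorem locF_shift {M F : Type} [Field M] [Field F] [Algebra M F] {f h : M[X]} (b : M)
    (hl : LocF F f h) : LocF F (f.comp (X + C b)) (h.comp (X + C b)) := by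
  obtain ⟨l, s, hl1, hl2⟩ := hl
  set β : F := algebraMap M F b with hβ
  have hmap : ∀ p : M[X], (p.comp (X + C b)).map (algebraMap M F) =
      (p.map (algebraMap M F)).comp (X + C β) := by
    intro p
    rw [Polynomial.map_comp, Polynomial.map_add, map_X, map_C]
  have hdvd : ∀ {p q : F[X]}, p ∣ q → p.comp (X + C β) ∣ q.comp (X + C β) := by
    rintro p _ ⟨u, rfl⟩
    exact ⟨u.comp (X + C β), by rw [mul_comp]⟩
  refine ⟨l.map fun p => (p.1.comp (X + C β), p.2.comp (X + C β)), s.comp (X + C β), ?_, ?_⟩
  · intro p hp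
    obtain ⟨p₀, hp₀, rfl⟩ := List.mem_map.1 hp
    obtain ⟨h1, h2, h3⟩ := hl1 p₀ hp₀
    refine ⟨h1.comp_X_add_C β, ?_, ?_⟩
    · obtain ⟨u, v, huv⟩ := h2
      refine ⟨u.comp (X + C β), v.comp (X + C β), ?_⟩
      show u.comp (X + C β) * p₀.1.comp (X + C β) + v.comp (X + C β) * _ = 1
      rw [hmap, ← mul_comp, ← mul_comp, ← add_comp, huv, one_comp]
    · show p₀.1.comp (X + C β) ∣ (p₀.2.comp (X + C β)) ^ 2 - _
      rw [hmap, ← pow_comp, ← sub_comp]
      exact hdvd h3
  · rw [hmap, hmap]
    have e : ((l.map fun p : F[X] × F[X] => (p.1.comp (X + C β), p.2.comp (X + C β))).map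
        fun p : F[X] × F[X] => (-1) ^ p.1.natDegree * p.1).prod =
        ((l.map fun p : F[X] × F[X] => (-1) ^ p.1.natDegree * p.1).prod).comp (X + C β) := by
      clear hl1 hl2
      induction l with
      | nil => simp
      | cons a l ih =>
        rw [List.map_cons, List.map_cons, List.prod_cons, ih, List.map_cons, List.prod_cons,
          mul_comp, mul_comp]
        congr 2
        show (-1) ^ (a.1.comp (X + C β)).natDegree = _
        rw [natDegree_comp, natDegree_X_add_C, mul_one, pow_comp, neg_comp, one_comp]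
    rw [e, ← mul_comp, ← pow_comp, ← sub_comp]
    exact hdvd hl2

theorem selF_shift {R M : Type} [Field M] [CommRing R] [IsDedekindDomain R] [Algebra R M]
    [IsFractionRing R M] {f : M[X]} {b : M} (hs : SelF R (f.comp (X + C b))) : SelF R f := by
  intro h hco hn hloc
  obtain ⟨s, hs'⟩ := hs (h.comp (X + C b)) (by
      obtain ⟨u, v, huv⟩ := hco
      exact ⟨u.comp (X + C b), v.comp (X + C b), by
        rw [← mul_comp, ← mul_comp, ← add_comp, huv, one_comp]⟩) (by
      rw [← shEquiv_mk, Algebra.norm_eq_of_algEquiv (shEquiv f b)]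
      exact hn) fun w => locF_shift b (hloc w)
  refine ⟨s.comp (X + C (-b)), ?_⟩
  obtain ⟨u, hu⟩ := hs'
  refine ⟨u.comp (X + C (-b)), ?_⟩
  have h1 := congrArg (fun p : M[X] => p.comp (X + C (-b))) hu
  simp only [sub_comp, mul_comp, pow_comp] at h1
  rwa [comp_comp'', comp_comp''] at h1

theorem scale_shift {R : Type} [CommRing R] {f : R[X]} (hm : f.Monic) (a D : R) :
    (f.comp (X + C a)).scaleRoots D = (f.scaleRoots D).comp (X + C (D * a)) := by
  nontriviality R
  ext j
  have hd : (f.comp (X + C a)).natDegree = f.natDegree := by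
    rw [← taylor_apply, natDegree_taylor]
  rw [coeff_scaleRoots, hd, coeff_shift le_rfl, coeff_shift (by rw [natDegree_scaleRoots]),
    Finset.sum_mul]
  refine Finset.sum_congr rfl fun i hi => ?_
  rw [Finset.mem_range] at hi
  rw [coeff_scaleRoots]
  rcases Nat.lt_or_ge i j with h | h
  · rw [Nat.choose_eq_zero_of_lt h, Nat.cast_zero]
    ring
  · have e : f.natDegree - j = (f.natDegree - i) + (i - j) := by omega
    rw [e, pow_add, mul_pow]
    ring

end Pool.Agent.H859.AL
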