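import Pool.Agent.H859.AL.Bad
import Pool.Agent.H859.TWC.Cnt2

/-!
# Translations of the curves: the set of primes with a root and a large factor
-/

set_option autoImplicit false
set_option linter.all false

open Polynomial Matrix IsDedekindDomain
open scoped Classical

namespace Pool.Agent.H859.AL

open Pool.Agent.N874.PP (nm)
open Pool.Agent.N352.PJ (Mt Jm chp form Dist Typ Reg uu dsc Cg DistMod)
open Pool.Agent.H859.PJ
open Pool.Agent.H859.N874.TW (Uni SplitS RamIrr selF)
open Pool.Agent.H859.N874.JM (PartsA)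
open Pool.Agent.H859.N415.PJBOX (chp_map Jm_map dist_map)

section comp

variable {R : Type} [CommRing R]

theorem coeff_shift {n : ℕ} {f : R[X]} (hd : f.natDegree ≤ n) (a : R) (j : ℕ) :
    (f.comp (X + C a)).coeff j =
      ∑ i ∈ Finset.range (n + 1), f.coeff i * (a ^ (i - j) * (i.choose j : R)) := by
  rw [Polynomial.comp, eval₂_eq_sum_range' C (Nat.lt_succ_of_le hd), finsetSum_coeff]
  refine Finset.sum_congr rfl fun i _ => ?_
  rw [coeff_C_mul, coeff_X_add_C_pow]

theorem irr_compR {f : R[X]} (hi : Irreducible f) (c : R) : Irreducible (f.comp (X + C c)) := by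
  have h1 : f.comp (X + C c) = algEquivAevalXAddC c f := by
    simp [algEquivAevalXAddC, comp_eq_aeval]
  rw [h1, MulEquiv.irreducible_iff]
  exact hi

theorem comp_comp' (f : R[X]) (a : R) : (f.comp (X + C a)).comp (X - C a) = f := by
  rw [comp_assoc]
  simp

theorem comp_comp'' (f : R[X]) (a : R) : (f.comp (X + C a)).comp (X + C (-a)) = f := by
  rw [comp_assoc]
  simp

end comp

variable {k : Type} [Field k] {g : ℕ}

theorem ht_shift {N : ℕ} {f : k[X][X]} (hf : HtA g (2 * N) f) {a : k[X]}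
    (ha : a.natDegree ≤ 2 * N) : HtA g (2 * N) (f.comp (X + C a)) where
  mon := hf.mon.comp_X_add_C a
  deg := by rw [natDegree_comp, natDegree_X_add_C, mul_one, hf.deg]
  ht := by
    intro j hj
    rw [coeff_shift hf.deg.le]
    refine natDegree_sum_le_of_forall_le _ _ fun i hi => ?_
    rw [Finset.mem_range] at hi
    by_cases hij : i < j
    · rw [Nat.choose_eq_zero_of_lt hij, Nat.cast_zero, mul_zero, mul_zero, natDegree_zero]
      exact Nat.zero_le _
    rw [not_lt] at hij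
    have h1 : (f.coeff i).natDegree ≤ 2 * N * (2 * g + 1 - i) := by
      rcases Nat.lt_or_ge i (2 * g + 1) with h | h
      · exact hf.ht i (by omega)
      · have hi' : i = f.natDegree := by rw [hf.deg]; omega
        rw [hi', hf.mon.coeff_natDegree, natDegree_one]
        exact Nat.zero_le _
    have h2 : (a ^ (i - j) * (i.choose j : k[X])).natDegree ≤ 2 * N * (i - j) := by
      refine natDegree_mul_le.trans ?_
      rw [natDegree_natCast, add_zero]
      refine natDegree_pow_le.trans ?_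
      rw [mul_comm]
      exact Nat.mul_le_mul_right _ ha
    refine natDegree_mul_le.trans ((Nat.add_le_add h1 h2).trans ?_)
    rw [← mul_add]
    exact Nat.mul_le_mul_left _ (by omega)

theorem inf_shift {N : ℕ} {f : k[X][X]} (hf : HtA g (2 * N) f) {a : k[X]}
    (ha : a.natDegree < 2 * N) {j : ℕ} (hj : j ≤ 2 * g) :
    ((f.comp (X + C a)).coeff j).coeff (2 * N * (2 * g + 1 - j)) =
      (f.coeff j).coeff (2 * N * (2 * g + 1 - j)) := by
  rw [coeff_shift hf.deg.le, finsetSum_coeff, Finset.sum_eq_single j]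
  · rw [Nat.sub_self, pow_zero, Nat.choose_self, Nat.cast_one, one_mul, mul_one]
  · intro i hi hij
    rw [Finset.mem_range] at hi
    rcases Nat.lt_or_ge i j with h | h
    · rw [Nat.choose_eq_zero_of_lt h, Nat.cast_zero, mul_zero, mul_zero, coeff_zero]
    have hlt : j < i := lt_of_le_of_ne h (Ne.symm hij)
    apply coeff_eq_zero_of_natDegree_lt
    have h1 : (f.coeff i).natDegree ≤ 2 * N * (2 * g + 1 - i) := by
      rcases Nat.lt_or_ge i (2 * g + 1) with h | h
      · exact hf.ht i (by omega)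
      · have hi' : i = f.natDegree := by rw [hf.deg]; omega
        rw [hi', hf.mon.coeff_natDegree, natDegree_one]
        exact Nat.zero_le _
    have h2 : (a ^ (i - j) * (i.choose j : k[X])).natDegree ≤ (i - j) * a.natDegree := by
      refine natDegree_mul_le.trans ?_
      rw [natDegree_natCast, add_zero]
      exact natDegree_pow_le
    have h3 : (i - j) * a.natDegree < 2 * N * (i - j) := by
      rw [mul_comm]
      exact Nat.mul_lt_mul_of_pos_right ha (by omega)
    refine lt_of_le_of_lt natDegree_mul_le ?_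
    refine lt_of_lt_of_le (Nat.add_lt_add_of_le_of_lt h1 (lt_of_le_of_lt h2 h3)) ?_
    rw [← mul_add]
    exact Nat.mul_le_mul_left _ (by omega)
  · intro h'
    exact absurd (Finset.mem_range.2 (by omega)) h'

theorem uni_shift {K : Type} [Field K] [Algebra k[X] K] [IsFractionRing k[X] K]
    {S T : Finset k[X]} (hST : S ⊆ T) {f F : k[X][X]} {a : k[X]}
    (h : Uni K S (f.comp (X + C a)) F) : Uni K T f F := by
  intro M _ _ _ _ _ _ R _ _ _ _ _ _ _ n hn hQ hP
  refine h M R n hn (fun Q hQS => hQ Q (hST hQS)) fun P hPm hPi hw => ?_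
  have h1 := hP P hPm hPi hw
  have e : (f.comp (X + C a)).map (Ideal.Quotient.mk (Ideal.span {P})) =
      (f.map (Ideal.Quotient.mk (Ideal.span {P}))).comp
        (X + C (Ideal.Quotient.mk (Ideal.span {P}) a)) := by
    rw [Polynomial.map_comp, Polynomial.map_add, map_X, map_C]
  rw [e]
  exact irr_compR h1 _

/-- A member of the family without a good twist comes from the set `XT`. -/
theorem bad_T [Finite k] (H : PartsA) (K : Type) [Field K] [Algebra k[X] K]
    [IsFractionRing k[X] K] (h2 : (2 : k) ≠ 0) (hg : 1 ≤ g) {N : ℕ} {r : k[X]} {T : Finset k[X]}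
    (hT : ∀ Q ∈ T, Q.Monic ∧ Irreducible Q) (hN : (∏ Q ∈ T, Q).natDegree < 2 * N)
    (hr : GoodRA g r) {f : k[X][X]} (hf : HtA g (2 * N) f)
    (hinf : ∀ j ≤ 2 * g, (f.coeff j).coeff (2 * N * (2 * g + 1 - j)) = r.coeff j)
    (hsq : Squarefree (dsc g f))
    (hno : ¬ ∃ J ⊆ T, ∃ a : k[X], Uni K T f ((f.comp (X + C a)).scaleRoots (∏ Q ∈ J, Q))) :
    LBadT g N T f := by
  set S : Finset k[X] := T.filter fun Q => TypeOne g (f.map (AdjoinRoot.mk Q)) with hS
  have hST : S ⊆ T := Finset.filter_subset _ _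
  have hSone : ∀ Q ∈ S, TypeOne g (f.map (AdjoinRoot.mk Q)) := fun Q hQ =>
    (Finset.mem_filter.1 hQ).2
  -- the roots
  have hroot : ∀ Q : k[X], ∃ c : k[X], Q ∈ S → ∃ h : (AdjoinRoot Q)[X], h.Monic ∧
      Irreducible h ∧ h.natDegree = 2 * g ∧
      f.map (AdjoinRoot.mk Q) = (X - C (AdjoinRoot.mk Q c)) * h := by
    intro Q
    by_cases hQ : Q ∈ S
    · obtain ⟨c, h, h1, h3, h4, h5⟩ := hSone Q hQ
      obtain ⟨c', rfl⟩ := AdjoinRoot.mk_surjective c
      exact ⟨c', fun _ => ⟨h, h1, h3, h4, h5⟩⟩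
    · exact ⟨0, fun h => absurd h hQ⟩
  choose c hc using hroot
  have hMm : (∏ Q ∈ T, Q).Monic := monic_prod_of_monic _ _ fun Q hQ => (hT Q hQ).1
  obtain ⟨a, hadeg, ha⟩ : ∃ a : k[X], a.natDegree < 2 * N ∧ ∀ Q ∈ S, Q ∣ a - c Q := by
    obtain ⟨a₀, ha₀'⟩ := Ideal.exists_forall_sub_mem_ideal (ι := {Q // Q ∈ T})
      (I := fun Q => Ideal.span {Q.1}) (by
        rintro ⟨Q, hQ⟩ ⟨Q', hQ'⟩ hne
        rw [Function.onFun, Ideal.isCoprime_span_singleton_iff, (hT Q hQ).2.coprime_iff_not_dvd]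
        intro hd
        exact hne (Subtype.ext (eq_of_monic_of_associated (hT Q hQ).1 (hT Q' hQ').1
          ((hT Q hQ).2.associated_of_dvd (hT Q' hQ').2 hd)))) (fun Q => c Q.1)
    have ha₀ : ∀ Q ∈ T, a₀ - c Q ∈ Ideal.span {Q} := fun Q hQ => ha₀' ⟨Q, hQ⟩
    refine ⟨a₀ %ₘ (∏ Q ∈ T, Q), ?_, fun Q hQ => ?_⟩
    · by_cases h1 : (∏ Q ∈ T, Q) = 1
      · rw [h1, modByMonic_one, natDegree_zero]
        omega
      · exact (natDegree_modByMonic_lt _ hMm h1).trans hN
    · have h1 := ha₀ Q (hST hQ)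
      rw [Ideal.mem_span_singleton] at h1
      have h3 : Q ∣ a₀ - a₀ %ₘ (∏ Q ∈ T, Q) := by
        refine (Finset.dvd_prod_of_mem (fun Q : k[X] => Q) (hST hQ)).trans ?_
        refine ⟨a₀ /ₘ (∏ Q ∈ T, Q), ?_⟩
        rw [sub_eq_iff_eq_add, add_comm]
        exact (modByMonic_add_div a₀ _).symm
      have h4 := dvd_sub h1 h3
      rwa [show a₀ - c Q - (a₀ - a₀ %ₘ (∏ Q ∈ T, Q)) = a₀ %ₘ (∏ Q ∈ T, Q) - c Q by ring] at h4
  set F := f.comp (X + C a) with hF
  have hFQ : ∀ Q ∈ S, ∃ s : k[X][X], s.Monic ∧ s.natDegree = 2 * g ∧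
      Irreducible (s.map (AdjoinRoot.mk Q)) ∧ F.map (AdjoinRoot.mk Q) =
        X * s.map (AdjoinRoot.mk Q) := by
    intro Q hQ
    haveI : Fact (Irreducible Q) := ⟨(hT Q (hST hQ)).2⟩
    obtain ⟨h, h1, h3, h4, h5⟩ := hc Q hQ
    have hac : AdjoinRoot.mk Q a = AdjoinRoot.mk Q (c Q) := by
      rw [← sub_eq_zero, ← map_sub]
      exact AdjoinRoot.mk_eq_zero.2 (ha Q hQ)
    have h6 : F.map (AdjoinRoot.mk Q) = X * h.comp (X + C (AdjoinRoot.mk Q a)) := by
      rw [hF, Polynomial.map_comp, Polynomial.map_add, map_X, map_C, h5, mul_comp, ← hac]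
      simp
    have hm : (h.comp (X + C (AdjoinRoot.mk Q a))).Monic := h1.comp_X_add_C _
    obtain ⟨s, hs1, hs2, hs3⟩ := lifts_and_natDegree_eq_and_monic
      (f := AdjoinRoot.mk Q) (p := h.comp (X + C (AdjoinRoot.mk Q a))) (by
        rw [lifts_iff_coeff_lifts]
        intro n
        exact AdjoinRoot.mk_surjective _) hm
    refine ⟨s, hs3, ?_, ?_, ?_⟩
    · rw [hs2, natDegree_comp, natDegree_X_add_C, mul_one, h4]
    · rw [hs1]
      exact irr_compR h3 _
    · rw [hs1, h6]
  have hFs : ∀ Q : k[X], ∃ s : k[X][X], Q ∈ S → (s.Monic ∧ s.natDegree = 2 * g ∧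
      Irreducible (s.map (AdjoinRoot.mk Q)) ∧ F.map (AdjoinRoot.mk Q) =
        X * s.map (AdjoinRoot.mk Q)) := by
    intro Q
    by_cases hQ : Q ∈ S
    · obtain ⟨s, hs⟩ := hFQ Q hQ
      exact ⟨s, fun _ => hs⟩
    · exact ⟨0, fun h => absurd h hQ⟩
  choose s hs using hFs
  have hgood : GoodSA g S s := fun Q hQ => ⟨(hT Q (hST hQ)).1, (hT Q (hST hQ)).2, (hs Q hQ).1,
    (hs Q hQ).2.1, trivial, (hs Q hQ).2.2.1⟩
  have hfam : FamA g N r S s F := by
    refine ⟨ht_shift hf hadeg.le, fun j hj => ?_, fun Q hQ j => ?_, ?_⟩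
    · rw [hF, inf_shift hf hadeg hj, hinf j hj]
    · have h1 := congrArg (fun p => p.coeff j) (hs Q hQ).2.2.2
      have h3 : (X : (AdjoinRoot Q)[X]) * (s Q).map (AdjoinRoot.mk Q) =
          (X * s Q).map (AdjoinRoot.mk Q) := by
        rw [Polynomial.map_mul, map_X]
      simp only [h3, coeff_map] at h1
      rw [← AdjoinRoot.mk_eq_zero, map_sub, h1, sub_self]
    · have h1 := dsc_taylor hf.mon hf.deg a
      rw [taylor_apply] at h1
      rw [hF, h1]
      exact hsq
  -- the translate is bad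
  have hbad : LBadA g N S s F := by
    by_contra hnb
    obtain ⟨J, hJ, hU⟩ := selF H K h2 hg hr hgood hfam hnb
    exact hno ⟨J, hJ.trans hST, a, uni_shift hST hU⟩
  obtain ⟨hFi, w, hw, hreg, B, hB, hBF⟩ := hbad
  refine ⟨?_, w, hw, hreg, B + a • Jm g k[X], ⟨shift_symm hB.symm a, ?_, ?_⟩, ?_⟩
  · have h1 := irr_compR hFi (-a)
    rwa [hF, comp_comp''] at h1
  · intro i j
    rw [Matrix.add_apply, Matrix.smul_apply, smul_eq_mul, Pool.Agent.N50.PJ.Jm_apply]
    by_cases hij : j = Fin.rev i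
    · rw [if_pos hij, mul_one]
      right
      have hwj : w i + w j = 0 := by rw [hij, hw.anti]; ring
      have h1 : ((B i j).natDegree : ℤ) ≤ 2 * N := by
        rcases hB.box i j with h | h
        · rw [h, natDegree_zero]; positivity
        · omega
      have h3 := natDegree_add_le (B i j) a
      have h4 : (B i j).natDegree ≤ 2 * N := by exact_mod_cast h1
      have h5 : max (B i j).natDegree a.natDegree ≤ 2 * N := max_le h4 hadeg.le
      have h6 : ((B i j + a).natDegree : ℤ) ≤ 2 * N := by exact_mod_cast h3.trans h5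
      omega
    · rw [if_neg hij, mul_zero, add_zero]
      exact hB.box i j
  · intro Q hQ
    have h1 : (B + a • Jm g k[X]).map (AdjoinRoot.mk Q) =
        B.map (AdjoinRoot.mk Q) + AdjoinRoot.mk Q a • Jm g (AdjoinRoot Q) := by
      rw [← Jm_map (AdjoinRoot.mk Q)]
      ext i j
      simp [Matrix.map_apply]
    refine ⟨(shift_symm hB.symm a).map _, fun ht => ?_⟩
    have h3 : chp ((B + a • Jm g k[X]).map (AdjoinRoot.mk Q)) = f.map (AdjoinRoot.mk Q) := by
      rw [chp_map, chp_shift, hBF, hF, comp_comp']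
    rw [h3] at ht
    have hQS : Q ∈ S := Finset.mem_filter.2 ⟨hQ, ht⟩
    rw [h1]
    exact dist_shift (dist_map (hT Q hQ).2 (hB.dist Q hQS)) _
  · rw [chp_shift, hBF, hF, comp_comp']

end Pool.Agent.H859.AL
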